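import Mathlib

/-!
Elementary facts for large real `x`.
-/

set_option autoImplicit false

namespace Pool.Agent.GenB

open Filter Asymptotics

theorem ev_pow (a b c : ℝ) (h : a < b) : ∀ᶠ x : ℝ in atTop, c * x ^ a ≤ x ^ b := by
  have h1 : Tendsto (fun x : ℝ => x ^ (b - a)) atTop atTop := tendsto_rpow_atTop (by linarith)
  filter_upwards [h1.eventually_ge_atTop c, eventually_gt_atTop (0 : ℝ)] with x hx hx0
  have h2 : x ^ b = x ^ (b - a) * x ^ a := by
    rw [← Real.rpow_add hx0]; ring_nf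
  rw [h2]
  exact mul_le_mul_of_nonneg_right hx (Real.rpow_nonneg hx0.le _)

/-- `c ((C x ^ a) ^ (1/n) + 1) ≤ (x ^ v) ^ (1/n)` -/
theorem ev_root (n : ℕ) (hn : 0 < n) (c C a v : ℝ) (hc : 0 ≤ c) (hC : 0 ≤ C) (hv : 0 < v) (h : a < v) :
    ∀ᶠ x : ℝ in atTop, c * ((C * x ^ a) ^ ((1 : ℝ) / n) + 1) ≤ (x ^ v) ^ ((1 : ℝ) / n) := by
  have hn' : (0 : ℝ) < n := by exact_mod_cast hn
  have h1 := ev_pow (a / n) (v / n) (2 * (c * C ^ ((1 : ℝ) / n))) (by gcongr)
  have h2 := ev_pow 0 (v / n) (2 * c) (by positivity)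
  filter_upwards [h1, h2, eventually_gt_atTop (0 : ℝ)] with x h1 h2 hx
  rw [Real.mul_rpow hC (Real.rpow_nonneg hx.le _), ← Real.rpow_mul hx.le, ← Real.rpow_mul hx.le,
    mul_one_div, mul_one_div]
  rw [Real.rpow_zero] at h2
  nlinarith

theorem exp_half_lt : Real.exp (1 / 2) < 2 := by
  have h1 : Real.exp (1 / 2) ^ 2 = Real.exp 1 := by
    rw [← Real.exp_nat_mul]; norm_num
  have h2 := Real.exp_one_lt_d9
  have h3 : 0 < Real.exp (1 / 2) := Real.exp_pos _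
  nlinarith

/-- the ceiling of an `n`-th root -/
theorem ev_ceil (n : ℕ) (hn : 0 < n) (v : ℝ) (hv : 0 < v) :
    ∀ᶠ x : ℝ in atTop, x ^ v ≤ (⌈(x ^ v) ^ ((1 : ℝ) / n)⌉₊ : ℝ) ^ n ∧
      (⌈(x ^ v) ^ ((1 : ℝ) / n)⌉₊ : ℝ) ^ n ≤ 2 * x ^ v := by
  have hn' : (0 : ℝ) < n := by exact_mod_cast hn
  have h1 : Tendsto (fun x : ℝ => (x ^ v) ^ ((1 : ℝ) / n)) atTop atTop :=
    (tendsto_rpow_atTop (by positivity)).comp (tendsto_rpow_atTop hv)
  filter_upwards [h1.eventually_ge_atTop (2 * n), eventually_gt_atTop (0 : ℝ)] with x hx hx0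
  set y : ℝ := (x ^ v) ^ ((1 : ℝ) / n) with hy
  have hyn : y ^ n = x ^ v := by
    rw [hy, one_div]
    exact Real.rpow_inv_natCast_pow (Real.rpow_nonneg hx0.le _) hn.ne'
  have hy0 : 0 < y := by linarith
  refine ⟨?_, ?_⟩
  · rw [← hyn]
    exact pow_le_pow_left₀ hy0.le (Nat.le_ceil y) n
  · have h2 : (⌈y⌉₊ : ℝ) ≤ y * (1 + 1 / y) := by
      have := (Nat.ceil_lt_add_one hy0.le).le
      rw [mul_add, mul_one, mul_one_div_cancel hy0.ne']
      exact this
    calc (⌈y⌉₊ : ℝ) ^ n ≤ (y * (1 + 1 / y)) ^ n := pow_le_pow_left₀ (Nat.cast_nonneg _) h2 n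
      _ = y ^ n * (1 + 1 / y) ^ n := mul_pow _ _ _
      _ ≤ y ^ n * 2 := by
          refine mul_le_mul_of_nonneg_left ?_ (by positivity)
          have h3 : (1 + 1 / y) ≤ Real.exp (1 / y) := by
            have := Real.add_one_le_exp (1 / y); linarith
          calc (1 + 1 / y) ^ n ≤ (Real.exp (1 / y)) ^ n := pow_le_pow_left₀ (by positivity) h3 n
            _ = Real.exp (n * (1 / y)) := by rw [← Real.exp_nat_mul]
            _ ≤ Real.exp (1 / 2) := by
                refine Real.exp_le_exp.2 ?_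
                rw [mul_one_div, div_le_div_iff₀ hy0 (two_pos : (0 : ℝ) < 2)]
                linarith
            _ ≤ 2 := exp_half_lt.le
      _ = 2 * x ^ v := by rw [hyn]; ring

theorem add_pow_le_two (n M D : ℕ) (hn : 0 < n) (hM : 0 < M) (h : 4 * n * D ≤ M) :
    (M + 2 * D) ^ n ≤ 2 * M ^ n := by
  have hM' : (0 : ℝ) < M := by exact_mod_cast hM
  have h' : 4 * (n : ℝ) * D ≤ M := by exact_mod_cast h
  have h2 : ((M : ℝ) + 2 * D) ^ n ≤ 2 * (M : ℝ) ^ n := by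
    have h3 : (M : ℝ) + 2 * D = M * (1 + 2 * D / M) := by field_simp
    have h4 : (1 + 2 * (D : ℝ) / M) ≤ Real.exp (2 * D / M) := by
      have := Real.add_one_le_exp (2 * (D : ℝ) / M); linarith
    have key : (1 + 2 * (D : ℝ) / M) ^ n ≤ 2 := by
      calc (1 + 2 * (D : ℝ) / M) ^ n ≤ (Real.exp (2 * D / M)) ^ n :=
            pow_le_pow_left₀ (by positivity) h4 n
        _ = Real.exp (n * (2 * D / M)) := by rw [← Real.exp_nat_mul]
        _ ≤ Real.exp (1 / 2) := by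
            refine Real.exp_le_exp.2 ?_
            rw [← mul_div_assoc, div_le_div_iff₀ hM' (two_pos : (0 : ℝ) < 2)]
            linarith
        _ ≤ 2 := exp_half_lt.le
    rw [h3, mul_pow]
    calc (M : ℝ) ^ n * (1 + 2 * (D : ℝ) / M) ^ n ≤ (M : ℝ) ^ n * 2 :=
          mul_le_mul_of_nonneg_left key (by positivity)
      _ = 2 * (M : ℝ) ^ n := by ring
  exact_mod_cast h2

end Pool.Agent.GenB
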