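import Mathlib

/-!
Bessel's inequality for a sum over a subset, no assumption on the values on the subset.
-/

set_option autoImplicit false

namespace Pool.Agent.GenB

open Finset

theorem bessel_up {X : Type} (B : Finset X) {n : ℕ} (f : Fin n → X → ℂ)
    (hf : ∀ i x, ‖f i x‖ ≤ 1) (η : ℝ) (hη : 0 ≤ η)
    (ho : ∀ i j, i ≠ j → ‖∑ x ∈ B, f i x * (starRingEnd ℂ) (f j x)‖ ≤ η) :
    ∑ x ∈ B, ‖∑ i, f i x‖ ^ 2 ≤ n * B.card + (n : ℝ) ^ 2 * η := by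
  classical
  have hexp : ∀ x, ((‖∑ i, f i x‖ ^ 2 : ℝ) : ℂ) =
      ∑ i, ∑ j, f i x * (starRingEnd ℂ) (f j x) := by
    intro x
    rw [Complex.ofReal_pow, ← Complex.mul_conj', map_sum, Finset.sum_mul_sum]
  have heq : ((∑ x ∈ B, ‖∑ i, f i x‖ ^ 2 : ℝ) : ℂ) =
      ∑ i, ∑ j, ∑ x ∈ B, f i x * (starRingEnd ℂ) (f j x) := by
    rw [Complex.ofReal_sum, Finset.sum_congr rfl fun x _ => hexp x, Finset.sum_comm]
    refine Finset.sum_congr rfl fun i _ => ?_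
    rw [Finset.sum_comm]
  have hterm : ∀ i j, ‖∑ x ∈ B, f i x * (starRingEnd ℂ) (f j x)‖ ≤
      (if i = j then (B.card : ℝ) else 0) + η := by
    intro i j
    by_cases hij : i = j
    · subst hij
      rw [if_pos rfl]
      have h4 : ‖∑ x ∈ B, f i x * (starRingEnd ℂ) (f i x)‖ ≤ B.card := by
        refine (norm_sum_le _ _).trans ?_
        have h5 : ∀ x ∈ B, ‖f i x * (starRingEnd ℂ) (f i x)‖ ≤ (1 : ℝ) := by
          intro x _
          rw [norm_mul, RCLike.norm_conj]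
          have := hf i x
          have h0 := norm_nonneg (f i x)
          nlinarith
        refine (Finset.sum_le_sum h5).trans ?_
        rw [Finset.sum_const, nsmul_eq_mul, mul_one]
      linarith
    · rw [if_neg hij, zero_add]
      exact ho i j hij
  have h6 : ∑ x ∈ B, ‖∑ i, f i x‖ ^ 2 = ‖((∑ x ∈ B, ‖∑ i, f i x‖ ^ 2 : ℝ) : ℂ)‖ := by
    rw [Complex.norm_real, Real.norm_of_nonneg (Finset.sum_nonneg fun _ _ => by positivity)]
  rw [h6, heq]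
  refine (norm_sum_le _ _).trans ?_
  have h7 : ∀ i ∈ (Finset.univ : Finset (Fin n)),
      ‖∑ j, ∑ x ∈ B, f i x * (starRingEnd ℂ) (f j x)‖ ≤ (B.card : ℝ) + n * η := by
    intro i _
    refine (norm_sum_le _ _).trans ((Finset.sum_le_sum fun j _ => hterm i j).trans ?_)
    rw [Finset.sum_add_distrib, Finset.sum_ite_eq, if_pos (Finset.mem_univ i), Finset.sum_const,
      Finset.card_univ, Fintype.card_fin, nsmul_eq_mul]
  refine (Finset.sum_le_sum h7).trans ?_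
  rw [Finset.sum_const, Finset.card_univ, Fintype.card_fin, nsmul_eq_mul]
  apply le_of_eq
  ring

theorem bessel_sub {X : Type} (B T : Finset X) (hT : T ⊆ B) {n : ℕ} (f : Fin n → X → ℂ)
    (hf : ∀ i x, ‖f i x‖ ≤ 1) (η : ℝ) (hη : 0 ≤ η)
    (ho : ∀ i j, i ≠ j → ‖∑ x ∈ B, f i x * (starRingEnd ℂ) (f j x)‖ ≤ η) :
    ‖∑ x ∈ T, ∑ i, f i x‖ ^ 2 ≤ T.card * (n * B.card + (n : ℝ) ^ 2 * η) := by
  have h1 : ‖∑ x ∈ T, ∑ i, f i x‖ ≤ ∑ x ∈ T, ‖∑ i, f i x‖ := norm_sum_le _ _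
  have h2 : (∑ x ∈ T, ‖∑ i, f i x‖) ^ 2 ≤ T.card * ∑ x ∈ T, ‖∑ i, f i x‖ ^ 2 :=
    sq_sum_le_card_mul_sum_sq
  have h3 : ∑ x ∈ T, ‖∑ i, f i x‖ ^ 2 ≤ ∑ x ∈ B, ‖∑ i, f i x‖ ^ 2 :=
    Finset.sum_le_sum_of_subset_of_nonneg hT fun _ _ _ => by positivity
  calc ‖∑ x ∈ T, ∑ i, f i x‖ ^ 2 ≤ (∑ x ∈ T, ‖∑ i, f i x‖) ^ 2 :=
        pow_le_pow_left₀ (norm_nonneg _) h1 2
    _ ≤ T.card * ∑ x ∈ T, ‖∑ i, f i x‖ ^ 2 := h2
    _ ≤ T.card * (n * B.card + (n : ℝ) ^ 2 * η) :=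
        mul_le_mul_of_nonneg_left (h3.trans (bessel_up B f hf η hη ho)) (by positivity)

end Pool.Agent.GenB
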