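import Pool.Agent.GenF.Casc

/-!
The cascade with one constant multiplier.
-/

set_option autoImplicit false

namespace Pool.Agent.GenB

open Finset Pool.Agent.GenF

variable {O : Type} [CommRing O] [IsDedekindDomain O] [Module.Free ℤ O] [Module.Finite ℤ O]
  [CharZero O] {n : ℕ} (b : Module.Basis (Fin n) ℤ O)

theorem step2 (hn : 0 < n) : ∃ Q C : ℕ, 1 ≤ Q ∧ 1 ≤ C ∧ ∀ l : Ideal O, l ≠ ⊥ → ∃ β : O, β ≠ 0 ∧
    nrm b β ^ n ≤ Ideal.absNorm l ∧ ∀ (a : Ideal O) (g : O), g ∈ l * a →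
      ∃ g1 ∈ a, (Q : O) * g = β * g1 ∧ nrm b g1 ^ n * Ideal.absNorm l ≤ C * nrm b g ^ n := by
  obtain ⟨C, hC1, hC⟩ := step b hn
  refine ⟨C.factorial, C.factorial ^ n * C, Nat.succ_le_of_lt (Nat.factorial_pos C), ?_,
    fun l hl => ?_⟩
  · exact Nat.succ_le_of_lt (Nat.mul_pos (Nat.pow_pos (Nat.factorial_pos C)) hC1)
  obtain ⟨β, hβ0, hβn, c, hc1, hc2, hst⟩ := hC l hl
  refine ⟨β, hβ0, hβn, fun a g hg => ?_⟩
  obtain ⟨g1, hg1, hgg, hsz⟩ := hst a g hg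
  obtain ⟨e, he⟩ := Nat.dvd_factorial hc1 hc2
  refine ⟨(e : O) * g1, a.mul_mem_left _ hg1, ?_, ?_⟩
  · rw [he]
    push_cast
    calc (c : O) * e * g = e * ((c : O) * g) := by ring
      _ = β * ((e : O) * g1) := by rw [hgg]; ring
  · rw [nrm_natCast_mul, mul_pow]
    have he2 : e ≤ C.factorial := by
      rw [he]
      exact Nat.le_mul_of_pos_left e hc1
    calc e ^ n * nrm b g1 ^ n * Ideal.absNorm l = e ^ n * (nrm b g1 ^ n * Ideal.absNorm l) := by ring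
      _ ≤ C.factorial ^ n * (C * nrm b g ^ n) :=
          Nat.mul_le_mul (Nat.pow_le_pow_left he2 n) hsz
      _ = C.factorial ^ n * C * nrm b g ^ n := by ring

theorem cascade2 (hn : 0 < n) : ∃ Q C : ℕ, 1 ≤ Q ∧ 1 ≤ C ∧ ∀ (m : ℕ) (l : Fin m → Ideal O),
    (∀ i, l i ≠ ⊥) → ∀ g : O, g ∈ ∏ i, l i → ∃ (β : Fin m → O) (g' : O),
      (∀ i, β i ≠ 0 ∧ nrm b (β i) ^ n ≤ Ideal.absNorm (l i)) ∧
      ((Q : O)) ^ m * g = (∏ i, β i) * g' ∧
      nrm b g' ^ n * ∏ i, Ideal.absNorm (l i) ≤ C ^ m * nrm b g ^ n := by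
  obtain ⟨Q, C, hQ1, hC1, hC⟩ := step2 b hn
  refine ⟨Q, C, hQ1, hC1, ?_⟩
  intro m
  induction m with
  | zero =>
    intro l _ g _
    refine ⟨fun _ => 1, g, fun i => i.elim0, ?_, ?_⟩
    · simp
    · simp
  | succ m ih =>
    intro l hl g hg
    rw [Fin.prod_univ_succ] at hg
    obtain ⟨β0, hβ0, hβn, hstep⟩ := hC (l 0) (hl 0)
    obtain ⟨g1, hg1, hgg, hsz⟩ := hstep (∏ i : Fin m, l i.succ) g hg
    obtain ⟨β, g', hall, heq, hle⟩ := ih (fun i => l i.succ) (fun i => hl _) g1 hg1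
    refine ⟨Fin.cons β0 β, g', ?_, ?_, ?_⟩
    · intro i
      refine Fin.cases ?_ (fun j => ?_) i
      · exact ⟨hβ0, hβn⟩
      · simpa using hall j
    · rw [Fin.prod_univ_succ]
      simp only [Fin.cons_zero, Fin.cons_succ]
      calc (Q : O) ^ (m + 1) * g = (Q : O) ^ m * ((Q : O) * g) := by ring
        _ = β0 * ((Q : O) ^ m * g1) := by rw [hgg]; ring
        _ = β0 * (∏ i, β i) * g' := by rw [heq]; ring
    · rw [Fin.prod_univ_succ]
      calc nrm b g' ^ n * (Ideal.absNorm (l 0) * ∏ i : Fin m, Ideal.absNorm (l i.succ))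
          = (nrm b g' ^ n * ∏ i : Fin m, Ideal.absNorm (l i.succ)) * Ideal.absNorm (l 0) := by
            ring
        _ ≤ (C ^ m * nrm b g1 ^ n) * Ideal.absNorm (l 0) := Nat.mul_le_mul_right _ hle
        _ = C ^ m * (nrm b g1 ^ n * Ideal.absNorm (l 0)) := by ring
        _ ≤ C ^ m * (C * nrm b g ^ n) := Nat.mul_le_mul_left _ hsz
        _ = C ^ (m + 1) * nrm b g ^ n := by ring

end Pool.Agent.GenB
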