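import Pool.Agent.GenF.Idl

/-!
Upper bound for the number of elements of a residue class in a box.
`(x, c) ↦ x + rep c` is injective from `{x ∈ box, x - a ∈ I} × O ⧸ I` into `box (-D) (M + D)`.
-/

set_option autoImplicit false

namespace Pool.Agent.GenB

open Finset Pool.Agent.GenF

variable {O : Type} [CommRing O] [IsDedekindDomain O] [Module.Free ℤ O] [Module.Finite ℤ O]
  [CharZero O] {n : ℕ} (b : Module.Basis (Fin n) ℤ O)

open Classical in
theorem count_class (hn : 0 < n) : ∃ C : ℕ, 1 ≤ C ∧ ∀ I : Ideal O, I ≠ ⊥ → ∀ M D : ℕ,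
    C * Ideal.absNorm I ≤ D ^ n → ∀ a : O,
      Ideal.absNorm I * ((box b 0 M).filter fun x => x - a ∈ I).card ≤ (M + 2 * D) ^ n := by
  obtain ⟨C, hC, hrep⟩ := exists_reps b hn
  refine ⟨C, hC, fun I hI M D hD a => ?_⟩
  have hfin : Finite (O ⧸ I) := Ideal.finiteQuotientOfFreeOfNeBot I hI
  have : Fintype (O ⧸ I) := Fintype.ofFinite _
  have h1 : ∀ c : O ⧸ I, ∃ x : O, Ideal.Quotient.mk I x = c ∧ nrm b x ≤ D := by
    intro c
    obtain ⟨z, rfl⟩ := Ideal.Quotient.mk_surjective c
    obtain ⟨x, hx, hx2⟩ := hrep I hI z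
    refine ⟨x, (Ideal.Quotient.eq.2 hx).symm, ?_⟩
    exact le_of_pow_le_pow_left₀ hn.ne' (Nat.zero_le D) (hx2.trans hD)
  choose rep hr1 hr2 using h1
  have hcard : Ideal.absNorm I = Fintype.card (O ⧸ I) := by
    rw [Ideal.absNorm_apply, Submodule.cardQuot_apply, Nat.card_eq_fintype_card]
  have hbox : (box b (-(D : ℤ)) ((M : ℤ) + D)).card = (M + 2 * D) ^ n := by
    rw [card_box]
    congr 1
    omega
  have h2 : (((box b 0 M).filter fun x => x - a ∈ I) ×ˢ (Finset.univ : Finset (O ⧸ I))).card ≤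
      (box b (-(D : ℤ)) ((M : ℤ) + D)).card := by
    refine Finset.card_le_card_of_injOn (fun x => x.1 + rep x.2) ?_ ?_
    · rintro ⟨x, c⟩ hx
      rw [Finset.mem_coe, Finset.mem_product, Finset.mem_filter, mem_box] at hx
      rw [Finset.mem_coe, mem_box]
      intro i
      have h3 := (nrm_le_iff b _ D).1 (hr2 c) i
      have h4 := hx.1.1 i
      simp only at h4 ⊢
      rw [map_add, Finsupp.add_apply]
      omega
    · rintro ⟨x, c⟩ hx ⟨y, d⟩ hy hxy
      rw [Finset.mem_coe, Finset.mem_product, Finset.mem_filter] at hx hy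
      simp only at hxy hx hy
      have hcd : c = d := by
        have h5 := congrArg (Ideal.Quotient.mk I) hxy
        rw [map_add, map_add, hr1, hr1] at h5
        have h6 : Ideal.Quotient.mk I x = Ideal.Quotient.mk I y := by
          rw [Ideal.Quotient.eq]
          have := I.sub_mem hx.1.2 hy.1.2
          rwa [sub_sub_sub_cancel_right] at this
        rw [h6] at h5
        exact add_left_cancel h5
      subst hcd
      have h7 : x = y := add_right_cancel hxy
      rw [h7]
  rw [Finset.card_product, Finset.card_univ, hbox, ← hcard] at h2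
  rw [mul_comm (Ideal.absNorm I)]
  exact h2

end Pool.Agent.GenB
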