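import Pool.Agent.GenF.Count

/-!
Many elements of a box are divisible by `m` prime ideals of a window.
-/

set_option autoImplicit false

namespace Pool.Agent.GenB

open Finset Filter Pool.Agent.GenF

variable {O : Type} [CommRing O] [IsDedekindDomain O] [Module.Free ℤ O] [Module.Finite ℤ O]
  [CharZero O] {n : ℕ} (b : Module.Basis (Fin n) ℤ O)

theorem mem_wnd {u v : ℝ} {l : Ideal O} (hv : 0 ≤ v) : l ∈ wnd O u v ↔
    l.IsPrime ∧ u < (Ideal.absNorm l : ℝ) ∧ (Ideal.absNorm l : ℝ) ≤ v := by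
  classical
  rw [wnd, Finset.mem_filter, Set.Finite.mem_toFinset]
  constructor
  · exact fun h => h.2
  · exact fun h => ⟨Nat.le_floor h.2.2, h⟩

theorem wnd_ne_bot {u v : ℝ} (hu : 0 ≤ u) (hv : 0 ≤ v) {l : Ideal O} (h : l ∈ wnd O u v) : l ≠ ⊥ := by
  rintro rfl
  have := ((mem_wnd hv).1 h).2.1
  rw [Ideal.absNorm_bot] at this
  simp at this
  linarith

/-- the number of prime ideals of a window which contain a given element -/
theorem card_wnd_mem (u v : ℝ) (hu : 1 ≤ u) (hv : 0 ≤ v) (V : ℕ) (x : O) (hx : x ≠ 0)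
    (hN : ((Algebra.norm ℤ x).natAbs : ℝ) < u ^ V) :
    (open Classical in (wnd O u v).filter fun l => x ∈ l).card ≤ V := by
  classical
  by_contra hlt
  push Not at hlt
  set W := (wnd O u v).filter fun l => x ∈ l with hW
  have hdvd : ∏ l ∈ W, l ∣ Ideal.span {x} := by
    refine Finset.prod_primes_dvd _ (fun l hl => ?_) (fun l hl => ?_)
    · rw [hW, Finset.mem_filter] at hl
      have h1 := ((mem_wnd hv).1 hl.1).1
      exact Ideal.prime_of_isPrime (wnd_ne_bot (by linarith) hv hl.1) h1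
    · rw [hW, Finset.mem_filter] at hl
      rw [Ideal.dvd_span_singleton]
      exact hl.2
  have hN2 : ∏ l ∈ W, Ideal.absNorm l ∣ (Algebra.norm ℤ x).natAbs := by
    rw [← Ideal.absNorm_span_singleton, ← map_prod]
    exact map_dvd Ideal.absNorm hdvd
  have hx2 : (Algebra.norm ℤ x).natAbs ≠ 0 := by
    rw [← Ideal.absNorm_span_singleton, Ne, Ideal.absNorm_eq_zero_iff, Ideal.span_singleton_eq_bot]
    exact hx
  have h3 : ∏ l ∈ W, Ideal.absNorm l ≤ (Algebra.norm ℤ x).natAbs :=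
    Nat.le_of_dvd (Nat.pos_of_ne_zero hx2) hN2
  have h4 : u ^ W.card ≤ ((∏ l ∈ W, Ideal.absNorm l : ℕ) : ℝ) := by
    push_cast
    rw [← Finset.prod_const]
    refine Finset.prod_le_prod (fun _ _ => by linarith) fun l hl => ?_
    rw [hW, Finset.mem_filter] at hl
    exact ((mem_wnd hv).1 hl.1).2.1.le
  have h5 : u ^ V ≤ u ^ W.card := pow_le_pow_right₀ hu hlt.le
  have h6 : ((∏ l ∈ W, Ideal.absNorm l : ℕ) : ℝ) ≤ ((Algebra.norm ℤ x).natAbs : ℝ) := by
    exact_mod_cast h3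
  linarith

/-- many elements of an ideal in a box, real form -/
theorem count_real (hn : 0 < n) : ∃ C : ℝ, 1 ≤ C ∧ ∀ (L X : ℝ) (M : ℕ), 1 ≤ L → 4 * L ≤ X →
    X ≤ (M : ℝ) ^ n → 8 * n * ((C * L) ^ ((1 : ℝ) / n) + 1) ≤ X ^ ((1 : ℝ) / n) →
    ∀ I : Ideal O, I ≠ ⊥ → (Ideal.absNorm I : ℝ) ≤ L →
      (M : ℝ) ^ n / (2 * Ideal.absNorm I) ≤
        (open Classical in (box b 0 (M : ℤ)).filter fun x => x ∈ I ∧ x ≠ 0).card := by
  classical
  obtain ⟨C, hC, hcount⟩ := count_ideal b hn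
  have hn' : (0 : ℝ) < n := by exact_mod_cast hn
  refine ⟨C, by exact_mod_cast hC, fun L X M hL h4 hX h8 I hI hIL => ?_⟩
  have hC' : (1 : ℝ) ≤ C := by exact_mod_cast hC
  set D : ℕ := ⌈(C * L) ^ ((1 : ℝ) / n)⌉₊ with hD
  have hD1 : (C * L) ^ ((1 : ℝ) / n) ≤ D := Nat.le_ceil _
  have hD2 : (D : ℝ) ≤ (C * L) ^ ((1 : ℝ) / n) + 1 :=
    (Nat.ceil_lt_add_one (Real.rpow_nonneg (by positivity) _)).le
  have hDn : C * L ≤ (D : ℝ) ^ n := by
    have h1 : ((C * L) ^ ((1 : ℝ) / n)) ^ n = C * L := by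
      rw [← Real.rpow_natCast, ← Real.rpow_mul (by positivity), one_div, inv_mul_cancel₀ hn'.ne',
        Real.rpow_one]
    rw [← h1]
    exact pow_le_pow_left₀ (Real.rpow_nonneg (by positivity) _) hD1 n
  have hX0 : 0 < X := by linarith
  have hXM : X ^ ((1 : ℝ) / n) ≤ M := by
    have h1 : X ^ ((1 : ℝ) / n) ≤ ((M : ℝ) ^ n) ^ ((1 : ℝ) / n) :=
      Real.rpow_le_rpow hX0.le hX (by positivity)
    refine h1.trans (le_of_eq ?_)
    rw [one_div]
    exact Real.pow_rpow_inv_natCast (Nat.cast_nonneg M) hn.ne'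
  have h8D : 8 * (n : ℝ) * D ≤ M := by
    refine le_trans (mul_le_mul_of_nonneg_left hD2 (by positivity)) (h8.trans hXM)
  have hn1 : (1 : ℝ) ≤ n := by exact_mod_cast hn
  have h2D : 2 * D ≤ M := by
    have : (2 : ℝ) * D ≤ M := by
      have hDnn : (0 : ℝ) ≤ D := Nat.cast_nonneg D
      nlinarith
    exact_mod_cast this
  have hIL' : C * Ideal.absNorm I ≤ D ^ n := by
    have : ((C * Ideal.absNorm I : ℕ) : ℝ) ≤ ((D ^ n : ℕ) : ℝ) := by
      push_cast
      exact (mul_le_mul_of_nonneg_left hIL (by positivity)).trans hDn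
    exact_mod_cast this
  have hc := hcount I hI M D hIL' h2D
  have hI0 : 0 < Ideal.absNorm I := Nat.pos_of_ne_zero fun h => hI (Ideal.absNorm_eq_zero_iff.1 h)
  have hI0' : (0 : ℝ) < Ideal.absNorm I := by exact_mod_cast hI0
  -- Bernoulli
  have hM0 : (0 : ℝ) < M := lt_of_lt_of_le (Real.rpow_pos_of_pos hX0 _) hXM
  have hbern : (3 / 4 : ℝ) * (M : ℝ) ^ n ≤ ((M - 2 * D : ℕ) : ℝ) ^ n := by
    have h1 : ((M - 2 * D : ℕ) : ℝ) = M * (1 + (-(2 * D / M))) := by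
      rw [Nat.cast_sub h2D]
      push_cast
      field_simp
      ring
    rw [h1, mul_pow, mul_comm]
    refine mul_le_mul_of_nonneg_left ?_ (by positivity)
    have h2 : 2 * (D : ℝ) / M ≤ 1 / (4 * n) := by
      rw [div_le_div_iff₀ hM0 (by positivity)]
      nlinarith
    have h3 : (-2 : ℝ) ≤ -(2 * D / M) := by
      have : 1 / (4 * (n : ℝ)) ≤ 1 := by
        rw [div_le_one (by positivity)]
        nlinarith
      linarith
    have h4 := one_add_mul_le_pow h3 n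
    have h5 : (n : ℝ) * (2 * D / M) ≤ 1 / 4 := by
      calc (n : ℝ) * (2 * D / M) ≤ n * (1 / (4 * n)) := mul_le_mul_of_nonneg_left h2 hn'.le
        _ = 1 / 4 := by field_simp
    linarith
  have hc2 : ((M - 2 * D : ℕ) : ℝ) ^ n ≤
      Ideal.absNorm I * (((box b 0 (M : ℤ)).filter fun x => x ∈ I).card : ℝ) := by
    exact_mod_cast hc
  have hsplit : ((box b 0 (M : ℤ)).filter fun x => x ∈ I).card ≤
      ((box b 0 (M : ℤ)).filter fun x => x ∈ I ∧ x ≠ 0).card + 1 := by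
    have h1 : ((box b 0 (M : ℤ)).filter fun x => x ∈ I) ⊆
        insert 0 ((box b 0 (M : ℤ)).filter fun x => x ∈ I ∧ x ≠ 0) := by
      intro x hx
      rw [Finset.mem_filter] at hx
      by_cases h0 : x = 0
      · rw [h0]; exact Finset.mem_insert_self _ _
      · exact Finset.mem_insert_of_mem (Finset.mem_filter.2 ⟨hx.1, hx.2, h0⟩)
    exact (Finset.card_le_card h1).trans (Finset.card_insert_le _ _)
  have hsplit' : (((box b 0 (M : ℤ)).filter fun x => x ∈ I).card : ℝ) ≤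
      (((box b 0 (M : ℤ)).filter fun x => x ∈ I ∧ x ≠ 0).card : ℝ) + 1 := by exact_mod_cast hsplit
  have h4I : 4 * (Ideal.absNorm I : ℝ) ≤ (M : ℝ) ^ n := by linarith
  rw [div_le_iff₀ (by positivity)]
  set t : ℝ := (((box b 0 (M : ℤ)).filter fun x => x ∈ I ∧ x ≠ 0).card : ℝ) with ht
  have h9 : (3 / 4 : ℝ) * (M : ℝ) ^ n ≤ Ideal.absNorm I * (t + 1) :=
    hbern.trans (hc2.trans (mul_le_mul_of_nonneg_left hsplit' hI0'.le))
  nlinarith

/-- the double counting -/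
theorem dense_of (hn : 0 < n) (W : Finset (Ideal O)) (hW : ∀ l ∈ W, l ≠ ⊥) (s0 : ℝ) (hs0 : 0 ≤ s0)
    (hs : s0 ≤ ∑ l ∈ W, (1 : ℝ) / Ideal.absNorm l) (m V M : ℕ)
    (hcnt : ∀ l : Fin m → Ideal O, (∀ i, l i ∈ W) →
      (M : ℝ) ^ n / (2 * Ideal.absNorm (∏ i, l i)) ≤
        (open Classical in (box b 0 (M : ℤ)).filter fun x => x ∈ ∏ i, l i ∧ x ≠ 0).card)
    (hV : ∀ x ∈ box b 0 (M : ℤ), x ≠ 0 → (open Classical in W.filter fun l => x ∈ l).card ≤ V) :
    ∃ T : Finset O, T ⊆ box b 0 M ∧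
      (∀ x ∈ T, x ≠ 0 ∧ ∃ l : Fin m → Ideal O, (∀ i, l i ∈ W) ∧ x ∈ ∏ i, l i) ∧
      s0 ^ m * (M : ℝ) ^ n ≤ 2 * (V : ℝ) ^ m * T.card := by
  classical
  set T : Finset O := (box b 0 (M : ℤ)).filter fun x => x ≠ 0 ∧
    ∃ l : Fin m → Ideal O, (∀ i, l i ∈ W) ∧ x ∈ ∏ i, l i with hT
  refine ⟨T, Finset.filter_subset _ _, fun x hx => (Finset.mem_filter.1 hx).2, ?_⟩
  set F := Fintype.piFinset fun _ : Fin m => W with hF
  have h1 : s0 ^ m * (M : ℝ) ^ n ≤
      2 * ∑ l ∈ F, (((box b 0 (M : ℤ)).filter fun x => x ∈ ∏ i, l i ∧ x ≠ 0).card : ℝ) := by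
    have h2 : ∑ l ∈ F, (M : ℝ) ^ n / (2 * Ideal.absNorm (∏ i, l i)) ≤
        ∑ l ∈ F, (((box b 0 (M : ℤ)).filter fun x => x ∈ ∏ i, l i ∧ x ≠ 0).card : ℝ) :=
      Finset.sum_le_sum fun l hl => hcnt l (fun i => Fintype.mem_piFinset.1 hl i)
    have h3 : ∑ l ∈ F, (M : ℝ) ^ n / (2 * Ideal.absNorm (∏ i, l i)) =
        (M : ℝ) ^ n / 2 * (∑ l ∈ W, (1 : ℝ) / Ideal.absNorm l) ^ m := by
      have h4 : (∑ l ∈ W, (1 : ℝ) / Ideal.absNorm l) ^ m =
          ∑ l ∈ F, ∏ i, (1 : ℝ) / Ideal.absNorm (l i) := by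
        rw [hF, Finset.sum_prod_piFinset W (fun (_ : Fin m) l => (1 : ℝ) / Ideal.absNorm l),
          Finset.prod_const, Finset.card_univ, Fintype.card_fin]
      rw [h4, Finset.mul_sum]
      refine Finset.sum_congr rfl fun l hl => ?_
      rw [map_prod]
      push_cast
      rw [Finset.prod_div_distrib, Finset.prod_const_one]
      rw [div_mul_div_comm, mul_one]
    have h5 : s0 ^ m ≤ (∑ l ∈ W, (1 : ℝ) / Ideal.absNorm l) ^ m := pow_le_pow_left₀ hs0 hs m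
    have h6 : (M : ℝ) ^ n / 2 * s0 ^ m ≤ (M : ℝ) ^ n / 2 * (∑ l ∈ W, (1 : ℝ) / Ideal.absNorm l) ^ m :=
      mul_le_mul_of_nonneg_left h5 (by positivity)
    rw [← h3] at h6
    nlinarith
  have h2 : ∑ l ∈ F, ((box b 0 (M : ℤ)).filter fun x => x ∈ ∏ i, l i ∧ x ≠ 0).card ≤
      V ^ m * T.card := by
    have h3 : ∀ l ∈ F, ((box b 0 (M : ℤ)).filter fun x => x ∈ ∏ i, l i ∧ x ≠ 0).card =
        ∑ x ∈ T, if x ∈ ∏ i, l i then 1 else 0 := by
      intro l hl
      rw [← Finset.card_filter]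
      congr 1
      ext x
      rw [Finset.mem_filter, Finset.mem_filter, hT, Finset.mem_filter]
      constructor
      · rintro ⟨h4, h5, h6⟩
        exact ⟨⟨h4, h6, l, fun i => Fintype.mem_piFinset.1 hl i, h5⟩, h5⟩
      · rintro ⟨⟨h4, h6, _⟩, h5⟩
        exact ⟨h4, h5, h6⟩
    rw [Finset.sum_congr rfl h3, Finset.sum_comm]
    have h4 : ∀ x ∈ T, (∑ l ∈ F, if x ∈ ∏ i, l i then 1 else 0) ≤ V ^ m := by
      intro x hx
      rw [← Finset.card_filter]
      have h5 : F.filter (fun l => x ∈ ∏ i, l i) ⊆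
          Fintype.piFinset fun _ : Fin m => W.filter fun l => x ∈ l := by
        intro l hl
        rw [Finset.mem_filter, hF, Fintype.mem_piFinset] at hl
        rw [Fintype.mem_piFinset]
        intro i
        rw [Finset.mem_filter]
        refine ⟨hl.1 i, ?_⟩
        have h6 : ∏ i, l i ≤ l i := Ideal.le_of_dvd (Finset.dvd_prod_of_mem l (Finset.mem_univ i))
        exact h6 hl.2
      refine (Finset.card_le_card h5).trans ?_
      rw [Fintype.card_piFinset, Finset.prod_const, Finset.card_univ, Fintype.card_fin]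
      rw [hT, Finset.mem_filter] at hx
      exact Nat.pow_le_pow_left (hV x hx.1 hx.2.1) m
    calc ∑ x ∈ T, (∑ l ∈ F, if x ∈ ∏ i, l i then 1 else 0) ≤ ∑ _x ∈ T, V ^ m :=
          Finset.sum_le_sum h4
      _ = V ^ m * T.card := by rw [Finset.sum_const, smul_eq_mul, Nat.mul_comm]
  have h3 : ∑ l ∈ F, (((box b 0 (M : ℤ)).filter fun x => x ∈ ∏ i, l i ∧ x ≠ 0).card : ℝ) ≤
      (V : ℝ) ^ m * T.card := by exact_mod_cast h2
  linarith

end Pool.Agent.GenB
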