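import Pool.Agent.GenF.Defs

/-!
For every prime `p` there are `k` bounded integers, independent modulo squares, which are squares mod `p`;
the number of elements of `small`.
-/

set_option autoImplicit false

namespace Pool.Agent.GenB

open Finset Pool.Agent.GenF

private theorem mul_sq {p : ℕ} [Fact p.Prime] {a b : ZMod p} (ha : ¬ IsSquare a) (hb : ¬ IsSquare b) :
    IsSquare (a * b) := by
  classical
  have ha0 : a ≠ 0 := fun h => ha (h ▸ ⟨0, by ring⟩)
  have hb0 : b ≠ 0 := fun h => hb (h ▸ ⟨0, by ring⟩)
  by_cases h2 : ringChar (ZMod p) = 2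
  · exact absurd (FiniteField.isSquare_of_char_two h2 a) ha
  have h3 : quadraticChar (ZMod p) a = -1 := (quadraticChar_neg_one_iff_not_isSquare).2 ha
  have h4 : quadraticChar (ZMod p) b = -1 := (quadraticChar_neg_one_iff_not_isSquare).2 hb
  rw [← quadraticChar_one_iff_isSquare (mul_ne_zero ha0 hb0), map_mul, h3, h4]
  norm_num

theorem exists_dr (k : ℕ) : ∃ D : ℕ, ∀ (p : ℕ) [Fact p.Prime], ∃ d : Fin k → ℕ, (∀ j, d j ≤ D) ∧
    Indep k d ∧ ∃ r : Fin k → ZMod p, ∀ j, r j ^ 2 = (d j : ZMod p) := by
  classical
  set q : Fin (k + 1) → ℕ := fun i => Nat.nth Nat.Prime i with hq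
  have hqp : ∀ i, (q i).Prime := fun i => Nat.prime_nth_prime i
  have hqi : Function.Injective q := by
    intro i j hij
    exact Fin.ext (Nat.nth_injective Nat.infinite_setOf_prime hij)
  have hqD : ∀ i, q i ≤ q (Fin.last k) := by
    intro i
    exact (Nat.nth_monotone Nat.infinite_setOf_prime) (Fin.is_le i)
  refine ⟨q (Fin.last k) * q (Fin.last k), fun p hp => ?_⟩
  -- the exceptional index
  obtain ⟨i0, hi0⟩ : ∃ i0 : Fin (k + 1), (∀ i, IsSquare (q i : ZMod p)) ∨ ¬ IsSquare (q i0 : ZMod p) := by
    by_cases h : ∀ i, IsSquare (q i : ZMod p)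
    · exact ⟨0, Or.inl h⟩
    · push Not at h
      obtain ⟨i, hi⟩ := h
      exact ⟨i, Or.inr hi⟩
  set e : Fin k → ℕ := fun j => if IsSquare (q (i0.succAbove j) : ZMod p) then 1 else q i0 with he
  refine ⟨fun j => q (i0.succAbove j) * e j, ?_, ?_, ?_⟩
  · intro j
    refine Nat.mul_le_mul (hqD _) ?_
    simp only [he]
    split_ifs
    · exact (hqp _).one_lt.le
    · exact hqD _
  · intro J hJ hsq
    obtain ⟨j0, hj0⟩ := hJ
    set P := q (i0.succAbove j0) with hP
    have hPp : P.Prime := hqp _
    have : Fact P.Prime := ⟨hPp⟩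
    have hev : Even (padicValNat P (∏ j ∈ J, q (i0.succAbove j) * e j)) := by
      obtain ⟨y, hy⟩ := hsq
      have hy0 : y ≠ 0 := by
        rintro rfl
        rw [mul_zero, Finset.prod_eq_zero_iff] at hy
        obtain ⟨j, _, hj⟩ := hy
        rcases Nat.mul_eq_zero.1 hj with h | h
        · exact (hqp _).ne_zero h
        · simp only [he] at h
          split_ifs at h
          exact (hqp _).ne_zero h
      rw [hy, padicValNat.mul hy0 hy0]
      exact ⟨_, rfl⟩
    have hone : padicValNat P (∏ j ∈ J, q (i0.succAbove j) * e j) = 1 := by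
      rw [Finset.prod_mul_distrib, ← Finset.mul_prod_erase J (fun j => q (i0.succAbove j)) hj0, mul_assoc]
      rw [padicValNat.mul hPp.ne_zero]
      · rw [padicValNat_self]
        have hnd : ¬ P ∣ (∏ j ∈ J.erase j0, q (i0.succAbove j)) * ∏ j ∈ J, e j := by
          intro hdvd
          rcases (Nat.Prime.dvd_mul hPp).1 hdvd with h | h
          · rw [Prime.dvd_finset_prod_iff hPp.prime] at h
            obtain ⟨j, hj, hj2⟩ := h
            have := (Nat.prime_dvd_prime_iff_eq hPp (hqp _)).1 hj2
            have h3 := hqi this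
            have h4 := Fin.succAbove_right_injective h3
            exact (Finset.ne_of_mem_erase hj) h4.symm
          · rw [Prime.dvd_finset_prod_iff hPp.prime] at h
            obtain ⟨j, hj, hj2⟩ := h
            simp only [he] at hj2
            split_ifs at hj2
            · exact hPp.one_lt.ne' (Nat.dvd_one.1 hj2)
            · have := (Nat.prime_dvd_prime_iff_eq hPp (hqp _)).1 hj2
              have h3 := hqi this
              exact Fin.succAbove_ne _ _ h3
        rw [padicValNat.eq_zero_of_not_dvd hnd]
      · refine mul_ne_zero ?_ ?_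
        · rw [Finset.prod_ne_zero_iff]
          exact fun j _ => (hqp _).ne_zero
        · rw [Finset.prod_ne_zero_iff]
          intro j _
          simp only [he]
          split_ifs
          · exact one_ne_zero
          · exact (hqp _).ne_zero
    rw [hone] at hev
    exact absurd hev (by decide)
  · have hsq : ∀ j, IsSquare ((q (i0.succAbove j) * e j : ℕ) : ZMod p) := by
      intro j
      simp only [he]
      split_ifs with h
      · rw [mul_one]; exact h
      · rcases hi0 with h2 | h2
        · exact absurd (h2 _) h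
        · push_cast
          exact mul_sq h h2
    choose r hr using hsq
    exact ⟨r, fun j => by rw [pow_two, ← hr j]⟩

/-- the size of `small` -/
theorem card_small (p k E : ℕ) [Fact p.Prime] (r : Fin k → ZMod p) :
    (small p k r E).ncard ≤ (2 * E + 1) ^ 2 ^ k := by
  classical
  set F : Finset (Finset (Fin k) → ℤ) := Fintype.piFinset fun _ => Finset.Icc (-(E : ℤ)) E with hF
  have hFc : F.card = (2 * E + 1) ^ 2 ^ k := by
    rw [hF, Fintype.card_piFinset, Finset.prod_const, Int.card_Icc, Finset.card_univ,
      Fintype.card_finset, Fintype.card_fin]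
    congr 1
    omega
  set φ : (Finset (Fin k) → ℤ) → ZMod p := fun a => ∑ J, (a J : ZMod p) * ∏ j ∈ J, r j with hφ
  have h1 : ((fun u : (ZMod p)ˣ => (u : ZMod p)) '' small p k r E) ⊆ (F.image φ : Finset (ZMod p)) := by
    rintro _ ⟨u, ⟨a, ha, hu⟩, rfl⟩
    rw [Finset.coe_image]
    refine ⟨a, ?_, hu.symm⟩
    rw [Finset.mem_coe, hF, Fintype.mem_piFinset]
    intro J
    rw [Finset.mem_Icc]
    have := ha J
    omega
  have h2 : (small p k r E).ncard = ((fun u : (ZMod p)ˣ => (u : ZMod p)) '' small p k r E).ncard :=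
    (Set.ncard_image_of_injective _ Units.val_injective).symm
  rw [h2, ← hFc]
  refine (Set.ncard_le_ncard h1 (Finset.finite_toSet _)).trans ?_
  rw [Set.ncard_coe_finset]
  exact Finset.card_image_le

end Pool.Agent.GenB
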