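import Pool.Agent.GenB.MQA
import Pool.Agent.GenF.Size

/-!
The multiquadratic layer: ring homomorphisms from the integers of a multiquadratic field to `ZMod p`.
-/

set_option autoImplicit false

namespace Pool.Agent.GenB

open Finset Pool.Agent.GenF NumberField

section

variable {K : Type} [Field K] [NumberField K] {k : ℕ} (α : Fin k → K) (d : Fin k → ℕ)

omit [NumberField K] in
/-- the square roots are integers -/
theorem exists_A (hα : ∀ j, α j ^ 2 = (d j : K)) : ∃ A : Fin k → 𝓞 K, (∀ j, (A j : K) = α j) ∧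
    ∀ j, A j ^ 2 = (d j : 𝓞 K) := by
  have hint : ∀ j, IsIntegral ℤ (α j) := by
    intro j
    refine IsIntegral.of_pow two_pos ?_
    rw [hα j]
    exact isIntegral_algebraMap (R := ℤ) (x := (d j : ℤ)) |> fun h => by simpa using h
  refine ⟨fun j => ⟨α j, hint j⟩, fun j => rfl, fun j => ?_⟩
  apply RingOfIntegers.ext
  push_cast
  exact hα j

/-- coordinates of `m0 x` in the products of the square roots -/
theorem exists_coord {n : ℕ} (b : Module.Basis (Fin n) ℤ (𝓞 K))
    (B : Module.Basis (Finset (Fin k)) ℚ K) (hB : ∀ J, B J = ∏ j ∈ J, α j)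
    (A : Fin k → 𝓞 K) (hA : ∀ j, (A j : K) = α j) :
    ∃ m0 C : ℕ, 1 ≤ m0 ∧ ∀ x : 𝓞 K, ∃ c : Finset (Fin k) → ℤ, (∀ J, (c J).natAbs ≤ C * nrm b x) ∧
      (m0 : 𝓞 K) * x = ∑ J, (c J : 𝓞 K) * ∏ j ∈ J, A j := by
  classical
  set q : Fin n → Finset (Fin k) → ℚ := fun i J => B.repr (b i : K) J with hq
  set m0 : ℕ := ∏ i, ∏ J, (q i J).den with hm0
  have hm0pos : 0 < m0 := Finset.prod_pos fun i _ => Finset.prod_pos fun J _ => (q i J).den_pos
  have hdvd : ∀ i J, (q i J).den ∣ m0 := fun i J =>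
    (Finset.dvd_prod_of_mem _ (Finset.mem_univ J)).trans
      (Finset.dvd_prod_of_mem (fun i => ∏ J, (q i J).den) (Finset.mem_univ i))
  have ha : ∀ i J, ∃ a : ℤ, (a : ℚ) = m0 * q i J := by
    intro i J
    obtain ⟨e, he⟩ := hdvd i J
    refine ⟨e * (q i J).num, ?_⟩
    rw [he]
    push_cast
    have h1 : ((q i J).den : ℚ) * q i J = (q i J).num := by
      rw [mul_comm]; exact Rat.mul_den_eq_num _
    rw [mul_comm ((q i J).den : ℚ) (e : ℚ), mul_assoc, h1]
  choose a ha using ha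
  have hbi : ∀ i, (m0 : 𝓞 K) * b i = ∑ J, (a i J : 𝓞 K) * ∏ j ∈ J, A j := by
    intro i
    have h1 : (m0 : K) * (b i : K) = ∑ J, ((a i J : ℤ) : K) * ∏ j ∈ J, α j := by
      calc (m0 : K) * (b i : K) = (m0 : K) * ∑ J, B.repr (b i : K) J • B J := by rw [B.sum_repr]
        _ = ∑ J, ((a i J : ℤ) : K) * ∏ j ∈ J, α j := by
            rw [Finset.mul_sum]
            refine Finset.sum_congr rfl fun J _ => ?_
            rw [hB, Algebra.smul_def, ← mul_assoc]
            have h2 : (m0 : K) * algebraMap ℚ K (B.repr (b i : K) J) = ((a i J : ℤ) : K) := by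
              have h3 := congrArg (algebraMap ℚ K) (ha i J)
              rw [map_intCast, map_mul, map_natCast] at h3
              exact h3.symm
            rw [h2]
    apply RingOfIntegers.ext
    push_cast
    rw [h1]
    simp only [hA]
    refine Finset.sum_congr rfl fun J _ => ?_
    congr 1
  refine ⟨m0, ∑ i, ∑ J, (a i J).natAbs, hm0pos, fun x => ?_⟩
  refine ⟨fun J => ∑ i, b.repr x i * a i J, fun J => ?_, ?_⟩
  · calc (∑ i, b.repr x i * a i J).natAbs ≤ ∑ i, (b.repr x i * a i J).natAbs := Int.natAbs_sum_le _ _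
      _ ≤ ∑ i, (a i J).natAbs * nrm b x := by
          refine Finset.sum_le_sum fun i _ => ?_
          rw [Int.natAbs_mul, mul_comm]
          exact Nat.mul_le_mul_left _ ((nrm_le_iff b x (nrm b x)).1 le_rfl i)
      _ ≤ (∑ i, ∑ J, (a i J).natAbs) * nrm b x := by
          rw [← Finset.sum_mul]
          refine Nat.mul_le_mul_right _ (Finset.sum_le_sum fun i _ => ?_)
          exact Finset.single_le_sum (f := fun J => (a i J).natAbs) (fun _ _ => Nat.zero_le _)
            (Finset.mem_univ J)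
  · have h1 := b.sum_repr x
    conv_lhs => rw [← h1]
    rw [Finset.mul_sum]
    have h2 : ∀ i, (m0 : 𝓞 K) * (b.repr x i • b i) = ∑ J, ((b.repr x i * a i J : ℤ) : 𝓞 K) * ∏ j ∈ J, A j := by
      intro i
      rw [mul_smul_comm, hbi, Finset.smul_sum]
      refine Finset.sum_congr rfl fun J _ => ?_
      rw [zsmul_eq_mul]
      push_cast
      ring
    rw [Finset.sum_congr rfl fun i _ => h2 i, Finset.sum_comm]
    refine Finset.sum_congr rfl fun J _ => ?_
    push_cast
    rw [Finset.sum_mul]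

/-- one ring homomorphism -/
theorem exists_hom {n : ℕ} (b : Module.Basis (Fin n) ℤ (𝓞 K)) (hn : 0 < n) (A : Fin k → 𝓞 K)
    (hA2 : ∀ j, A j ^ 2 = (d j : 𝓞 K)) (m0 : ℕ) (hm0 : 1 ≤ m0)
    (hx : ∀ x : 𝓞 K, ∃ c : Finset (Fin k) → ℤ, (m0 : 𝓞 K) * x = ∑ J, (c J : 𝓞 K) * ∏ j ∈ J, A j)
    (p : ℕ) [hp : Fact p.Prime] (hpm : m0 < p) (r : Fin k → ZMod p)
    (hr : ∀ j, r j ^ 2 = (d j : ZMod p)) :
    ∃ π : 𝓞 K →+* ZMod p, ∀ j, π (A j) = r j ∨ π (A j) = - r j := by
  classical
  have hI : Ideal.span {(p : 𝓞 K)} ≠ ⊤ := by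
    intro h
    have h1 := Ideal.absNorm_span_singleton (p : 𝓞 K)
    rw [h, Ideal.absNorm_top] at h1
    have h2 : Algebra.norm ℤ ((algebraMap ℤ (𝓞 K)) (p : ℤ)) = (p : ℤ) ^ Fintype.card (Fin n) :=
      Algebra.norm_algebraMap_of_basis b _
    rw [map_natCast] at h2
    rw [h2, Fintype.card_fin, Int.natAbs_pow, Int.natAbs_natCast] at h1
    have h3 := Nat.one_lt_pow hn.ne' hp.out.one_lt
    omega
  obtain ⟨P, hP, hPI⟩ := Ideal.exists_le_maximal _ hI
  let F := 𝓞 K ⧸ P
  let _ : Field F := Ideal.Quotient.field P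
  have hpF : (p : F) = 0 := by
    have : (Ideal.Quotient.mk P) (p : 𝓞 K) = 0 :=
      Ideal.Quotient.eq_zero_iff_mem.2 (hPI (Ideal.mem_span_singleton_self _))
    rwa [map_natCast] at this
  have hchar : ringChar F = p := by
    have h1 := ringChar.dvd hpF
    rcases (Nat.dvd_prime hp.out).1 h1 with h2 | h2
    · exact absurd h2 (CharP.ringChar_ne_one)
    · exact h2
  have : CharP F p := ringChar.of_eq hchar
  let φ : ZMod p →+* F := ZMod.castHom (dvd_refl p) F
  have hφi : Function.Injective φ := φ.injective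
  have hsq : ∀ j, Ideal.Quotient.mk P (A j) = φ (r j) ∨ Ideal.Quotient.mk P (A j) = - φ (r j) := by
    intro j
    apply sq_eq_sq_iff_eq_or_eq_neg.1
    rw [← map_pow, ← map_pow, hA2, hr, map_natCast, map_natCast]
  have hrange : ∀ j, Ideal.Quotient.mk P (A j) ∈ φ.range := by
    intro j
    rcases hsq j with h | h
    · exact ⟨r j, h.symm⟩
    · exact ⟨- r j, by rw [map_neg, h]⟩
  have hm0F : φ (m0 : ZMod p) ≠ 0 := by
    intro h
    have h2 : (m0 : ZMod p) = 0 := hφi (by rw [h, map_zero])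
    rw [ZMod.natCast_eq_zero_iff] at h2
    have := Nat.le_of_dvd (by omega) h2
    omega
  have hφs : Function.Surjective φ := by
    intro y
    obtain ⟨x, rfl⟩ := Ideal.Quotient.mk_surjective y
    obtain ⟨c, hc⟩ := hx x
    have h1 : (Ideal.Quotient.mk P) ((m0 : 𝓞 K) * x) ∈ φ.range := by
      rw [hc, map_sum]
      refine Subring.sum_mem _ fun J _ => ?_
      rw [map_mul, map_intCast, map_prod]
      refine Subring.mul_mem _ ?_ (Subring.prod_mem _ fun j _ => hrange j)
      exact ⟨(c J : ZMod p), by rw [map_intCast]⟩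
    obtain ⟨z, hz⟩ := h1
    refine ⟨(m0 : ZMod p)⁻¹ * z, ?_⟩
    rw [map_mul, hz, map_mul, map_natCast, map_inv₀, map_natCast]
    rw [map_natCast] at hm0F
    rw [← mul_assoc, inv_mul_cancel₀ hm0F, one_mul]
  let e : ZMod p ≃+* F := RingEquiv.ofBijective φ ⟨hφi, hφs⟩
  refine ⟨(e.symm : F →+* ZMod p).comp (Ideal.Quotient.mk P), fun j => ?_⟩
  have he : ∀ z : ZMod p, e z = φ z := fun z => rfl
  rcases hsq j with h | h
  · left
    show e.symm (Ideal.Quotient.mk P (A j)) = r j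
    rw [h, ← he, RingEquiv.symm_apply_apply]
  · right
    show e.symm (Ideal.Quotient.mk P (A j)) = - r j
    rw [h, ← he, ← map_neg, RingEquiv.symm_apply_apply]

end

theorem mq (k : ℕ) (d : Fin k → ℕ) (hd : Indep k d) : ∃ (K : Type) (_ : Field K) (_ : NumberField K)
    (b : Module.Basis (Fin (2 ^ k)) ℤ (𝓞 K)) (m0 C P0 : ℕ), 1 ≤ m0 ∧
    ∀ (p : ℕ) [Fact p.Prime], P0 < p → ∀ r : Fin k → ZMod p, (∀ j, r j ^ 2 = (d j : ZMod p)) →
      ∃ π : Fin (2 ^ k) → 𝓞 K →+* ZMod p, Function.Injective π ∧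
        ∀ i (x : 𝓞 K), ∃ a : Finset (Fin k) → ℤ, (∀ J, (a J).natAbs ≤ C * nrm b x) ∧
          (m0 : ZMod p) * π i x = ∑ J, (a J : ZMod p) * ∏ j ∈ J, r j := by
  classical
  obtain ⟨K, hK, hNF, hgal, α, hα, hli, hsp⟩ := exists_field k d hd
  set B : Module.Basis (Finset (Fin k)) ℚ K := Module.Basis.mk hli hsp with hBdef
  have hB : ∀ J, B J = ∏ j ∈ J, α j := fun J => Module.Basis.mk_apply hli hsp J
  have hfr : Module.finrank ℚ K = 2 ^ k := by
    rw [Module.finrank_eq_card_basis B, Fintype.card_finset, Fintype.card_fin]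
  let b : Module.Basis (Fin (2 ^ k)) ℤ (𝓞 K) :=
    Module.finBasisOfFinrankEq ℤ (𝓞 K) (by rw [RingOfIntegers.rank, hfr])
  obtain ⟨A, hA, hA2⟩ := exists_A α d hα
  obtain ⟨m0, C, hm0, hc⟩ := exists_coord α b B hB A hA
  refine ⟨K, hK, hNF, b, m0, C, m0 + 2 + ∑ j, d j, hm0, fun p hp hpP r hr => ?_⟩
  obtain ⟨π0, hπ0⟩ := exists_hom d b (by positivity) A hA2 m0 hm0
    (fun x => by obtain ⟨c, _, h⟩ := hc x; exact ⟨c, h⟩) p (by omega) r hr
  have hcard : Nat.card (K ≃ₐ[ℚ] K) = 2 ^ k := by rw [IsGalois.card_aut_eq_finrank, hfr]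
  let e : Fin (2 ^ k) ≃ (K ≃ₐ[ℚ] K) :=
    (finCongr hcard.symm).trans (Finite.equivFin (K ≃ₐ[ℚ] K)).symm
  let μ : (K ≃ₐ[ℚ] K) → 𝓞 K →+* 𝓞 K := fun σ => RingOfIntegers.mapRingHom (σ : K →+* K)
  have hμ : ∀ σ (x : 𝓞 K), ((μ σ x : 𝓞 K) : K) = σ (x : K) := fun σ x => rfl
  have hμA : ∀ σ j, μ σ (A j) = A j ∨ μ σ (A j) = - A j := by
    intro σ j
    rcases sigma_alpha α d hα σ j with h | h
    · left
      apply RingOfIntegers.ext
      rw [hμ, hA, h]
    · right
      apply RingOfIntegers.ext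
      rw [hμ, hA, h]
      push_cast
      exact congrArg Neg.neg (hA j).symm
  have hp2 : (2 : ZMod p) ≠ 0 := by
    intro h
    have h2 : ((2 : ℕ) : ZMod p) = 0 := by exact_mod_cast h
    rw [ZMod.natCast_eq_zero_iff] at h2
    have := Nat.le_of_dvd two_pos h2
    omega
  have hdj : ∀ j, (d j : ZMod p) ≠ 0 := by
    intro j h
    rw [ZMod.natCast_eq_zero_iff] at h
    have h1 : d j ≠ 0 := by
      intro h0
      refine hd {j} ⟨j, Finset.mem_singleton_self j⟩ ⟨0, ?_⟩
      rw [Finset.prod_singleton, h0]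
    have h2 := Nat.le_of_dvd (Nat.pos_of_ne_zero h1) h
    have h3 : d j ≤ ∑ j, d j := Finset.single_le_sum (fun _ _ => Nat.zero_le _) (Finset.mem_univ j)
    omega
  have hπA : ∀ j, π0 (A j) ≠ 0 := by
    intro j h
    have h1 := congrArg π0 (hA2 j)
    rw [map_pow, h, map_natCast, zero_pow two_ne_zero] at h1
    exact hdj j h1.symm
  refine ⟨fun i => π0.comp (μ (e i)), ?_, ?_⟩
  · intro i i' h
    apply e.injective
    have h1 : ∀ j, (e i) (α j) = (e i') (α j) := by
      intro j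
      have h2 : π0 (μ (e i) (A j)) = π0 (μ (e i') (A j)) := by
        have := RingHom.congr_fun h (A j)
        exact this
      have h3 : μ (e i) (A j) = μ (e i') (A j) := by
        rcases hμA (e i) j with h4 | h4 <;> rcases hμA (e i') j with h5 | h5
        · rw [h4, h5]
        · exfalso
          rw [h4, h5, map_neg] at h2
          have h6 : 2 * π0 (A j) = 0 := by linear_combination h2
          rcases mul_eq_zero.1 h6 with h7 | h7
          · exact hp2 h7
          · exact hπA j h7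
        · exfalso
          rw [h4, h5, map_neg] at h2
          have h6 : 2 * π0 (A j) = 0 := by linear_combination -h2
          rcases mul_eq_zero.1 h6 with h7 | h7
          · exact hp2 h7
          · exact hπA j h7
        · rw [h4, h5]
      have h4 := congrArg (fun x : 𝓞 K => (x : K)) h3
      rw [hμ, hμ, hA] at h4
      exact h4
    have h2 : (e i).toLinearMap = (e i').toLinearMap := by
      apply B.ext
      intro J
      rw [AlgEquiv.toLinearMap_apply, AlgEquiv.toLinearMap_apply, hB, map_prod, map_prod]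
      exact Finset.prod_congr rfl fun j _ => h1 j
    exact AlgEquiv.toLinearMap_injective h2
  · intro i x
    obtain ⟨c, hc1, hc2⟩ := hc x
    have hs : ∀ j, ∃ s : ℤ, s.natAbs = 1 ∧ π0 (μ (e i) (A j)) = (s : ZMod p) * r j := by
      intro j
      rcases hμA (e i) j with h4 | h4 <;> rcases hπ0 j with h5 | h5
      · exact ⟨1, rfl, by rw [h4, h5]; push_cast; ring⟩
      · exact ⟨-1, rfl, by rw [h4, h5]; push_cast; ring⟩
      · exact ⟨-1, rfl, by rw [h4, map_neg, h5]; push_cast; ring⟩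
      · exact ⟨1, rfl, by rw [h4, map_neg, h5]; push_cast; ring⟩
    choose s hs1 hs2 using hs
    refine ⟨fun J => c J * ∏ j ∈ J, s j, fun J => ?_, ?_⟩
    · rw [Int.natAbs_mul]
      have h1 : (∏ j ∈ J, s j).natAbs = 1 := by
        rw [← Int.natAbsHom_apply, map_prod]
        exact Finset.prod_eq_one fun j _ => hs1 j
      rw [h1, mul_one]
      exact hc1 J
    · have h1 : (m0 : ZMod p) * (π0.comp (μ (e i))) x = (π0.comp (μ (e i))) ((m0 : 𝓞 K) * x) := by
        rw [map_mul, map_natCast]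
      rw [h1, hc2, map_sum]
      refine Finset.sum_congr rfl fun J _ => ?_
      rw [map_mul, map_intCast, map_prod]
      have h2 : ∏ j ∈ J, (π0.comp (μ (e i))) (A j) = ∏ j ∈ J, ((s j : ZMod p) * r j) :=
        Finset.prod_congr rfl fun j _ => hs2 j
      rw [h2, Finset.prod_mul_distrib]
      push_cast
      ring

end Pool.Agent.GenB
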