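import Pool.Agent.GenB.ThmK
import Pool.Agent.GenB.Exist
import Pool.Agent.GenB.MQ
import Pool.Agent.GenP.Wnd

/-!
Bounded generation of `(ZMod p)ˣ` by an explicit set of at most `p ^ ε` residues.
-/

set_option autoImplicit false

namespace Pool.Agent.GenB

open Finset Filter Pool.Agent.GenF NumberField

/-- for one tuple `d` -/
theorem main_d {ε : ℝ} (h0 : 0 < ε) (h1 : ε ≤ 1) (k : ℕ) (hk : n0 ε ≤ 2 ^ k) (d : Fin k → ℕ)
    (hd : Indep k d) : ∀ᶠ x : ℝ in atTop, ∀ p : ℕ, (p : ℝ) = x → ∀ [Fact p.Prime],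
      ∀ r : Fin k → ZMod p, (∀ j, r j ^ 2 = (d j : ZMod p)) → ∀ g : (ZMod p)ˣ,
        ∃ s : Fin (3 * (mm ε + 1)) → (ZMod p)ˣ,
          (∀ i, s i ∈ small p k r ⌊x ^ (ε / 2 ^ k) / 3⌋₊) ∧ ∏ i, s i = g := by
  obtain ⟨K, hK1, hK2, b, m0, C, P0, hm0, hmq⟩ := mq k d hd
  have hk0 : (0 : ℝ) < 2 ^ k := by positivity
  have hH : HMert (𝓞 K) := Pool.Agent.GenP.hMert K
  filter_upwards [thmK b h0 h1 hk hH, eventually_gt_atTop (P0 : ℝ), eventually_gt_atTop (m0 : ℝ),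
    ev_pow (19 / 20 * ε / 2 ^ k) (ε / 2 ^ k) (2 * (3 * C)) (by gcongr; linarith),
    ev_pow 0 (ε / 2 ^ k) (2 * 3) (by positivity),
    eventually_ge_atTop (1 : ℝ)]
    with x hx1 hx2 hx3 hx4 hx5 hx6 p hp hfact r hr g
  have hx0 : 0 < x := by linarith
  have hpP : P0 < p := by
    have : (P0 : ℝ) < p := by rw [hp]; exact hx2
    exact_mod_cast this
  have hpm : m0 < p := by
    have : (m0 : ℝ) < p := by rw [hp]; exact hx3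
    exact_mod_cast this
  obtain ⟨π, hπ, ha⟩ := hmq p hpP r hr
  have hm0p : (m0 : ZMod p) ≠ 0 := by
    intro h
    rw [ZMod.natCast_eq_zero_iff] at h
    have h2 := Nat.le_of_dvd (by omega) h
    omega
  set u : (ZMod p)ˣ := Units.mk0 (m0 : ZMod p) hm0p with hu
  set N : ℕ := 3 * (mm ε + 1) with hN
  obtain ⟨L, hL1, hL2, hL3⟩ := hx1 p hp π hπ (g * (u⁻¹) ^ N)
  -- small enough
  have hE : ∀ q ∈ L, C * nrm b q.2 ≤ ⌊x ^ (ε / 2 ^ k) / 3⌋₊ := by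
    intro q hq
    refine Nat.le_floor ?_
    push_cast
    have h2 := (hL2 q hq).2
    have h3 : (nrm b q.2 : ℝ) ≤ x ^ (19 / 20 * ε / 2 ^ k) := by
      have h4 : ((nrm b q.2 : ℝ) ^ (2 ^ k)) ^ (((2 ^ k : ℕ) : ℝ)⁻¹) = nrm b q.2 :=
        Real.pow_rpow_inv_natCast (Nat.cast_nonneg _) (by positivity)
      rw [← h4]
      have h5 : x ^ (19 / 20 * ε / 2 ^ k) = (x ^ (19 / 20 * ε)) ^ (((2 ^ k : ℕ) : ℝ)⁻¹) := by
        rw [← Real.rpow_mul hx0.le]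
        push_cast
        rfl
      rw [h5]
      exact Real.rpow_le_rpow (by positivity) h2 (by positivity)
    have h6 : (C : ℝ) * nrm b q.2 ≤ C * x ^ (19 / 20 * ε / 2 ^ k) :=
      mul_le_mul_of_nonneg_left h3 (Nat.cast_nonneg _)
    have h7 : (0 : ℝ) ≤ x ^ (ε / 2 ^ k) := Real.rpow_nonneg hx0.le _
    refine h6.trans ?_
    generalize x ^ (19 / 20 * ε / 2 ^ k) = A at hx4 ⊢
    generalize x ^ (ε / 2 ^ k) = B at hx4 h7 ⊢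
    have h8 : 2 * (3 * (C : ℝ)) * A = 6 * (C * A) := by ring
    rw [h8] at hx4
    linarith
  -- the units
  have hprodne : ∀ q ∈ L, (m0 : ZMod p) * π q.1 q.2 ≠ 0 := by
    intro q hq
    refine mul_ne_zero hm0p fun h => ?_
    have h2 : (L.map fun q => π q.1 q.2).prod = 0 := by
      rw [List.prod_eq_zero_iff, List.mem_map]
      exact ⟨q, hq, h⟩
    rw [h2] at hL3
    exact (g * u⁻¹ ^ N).ne_zero hL3.symm
  have hlen : ∀ i : Fin N, (i : ℕ) < L.length := fun i => by rw [hL1]; exact i.2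
  set s : Fin N → (ZMod p)ˣ := fun i => Units.mk0 _ (hprodne (L.get ⟨i, hlen i⟩) (List.get_mem _ _)) with hs
  refine ⟨s, ?_, ?_⟩
  · intro i
    obtain ⟨a, ha1, ha2⟩ := ha (L.get ⟨i, hlen i⟩).1 (L.get ⟨i, hlen i⟩).2
    refine ⟨a, fun J => (ha1 J).trans (hE _ (List.get_mem _ _)), ?_⟩
    rw [hs]
    exact ha2
  · apply Units.ext
    have h2 : ∏ i : Fin N, (s i : ZMod p) = (L.map fun q => (m0 : ZMod p) * π q.1 q.2).prod := by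
      have h3 : L.map (fun q => (m0 : ZMod p) * π q.1 q.2) = List.ofFn fun i : Fin N => (s i : ZMod p) := by
        apply List.ext_get
        · rw [List.length_map, List.length_ofFn, hL1]
        · intro j hj1 hj2
          rw [List.get_eq_getElem, List.get_eq_getElem, List.getElem_map, List.getElem_ofFn]
          rfl
      rw [h3, List.prod_ofFn]
    rw [Units.coe_prod, h2]
    have h4 : (L.map fun q => (m0 : ZMod p) * π q.1 q.2).prod =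
        (m0 : ZMod p) ^ N * (L.map fun q => π q.1 q.2).prod := by
      rw [List.prod_map_mul, List.map_const', List.prod_replicate, hL1]
    rw [h4, hL3]
    have h5 : ((g * u⁻¹ ^ N : (ZMod p)ˣ) : ZMod p) = (g : ZMod p) * ((m0 : ZMod p)⁻¹) ^ N := by
      rw [hu]
      push_cast
      rw [Units.val_mk0]
    rw [h5]
    have h6 : (m0 : ZMod p) ^ N ≠ 0 := pow_ne_zero _ hm0p
    rw [inv_pow]
    field_simp

theorem small_mono (p k : ℕ) (r : Fin k → ZMod p) {E E' : ℕ} (h : E ≤ E') :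
    small p k r E ⊆ small p k r E' := by
  rintro u ⟨a, ha, hu⟩
  exact ⟨a, fun J => (ha J).trans h, hu⟩

/-- `D` free -/
theorem main' {ε : ℝ} (h0 : 0 < ε) (h1 : ε ≤ 1) : ∃ k N : ℕ, (N : ℝ) ≤ 12 / ε ∧ ∀ D : ℕ, ∃ p0 : ℕ,
    ∀ (p : ℕ) [Fact p.Prime], p0 ≤ p → ∀ d : Fin k → ℕ, (∀ j, d j ≤ D) → Indep k d →
      ∀ r : Fin k → ZMod p, (∀ j, r j ^ 2 = (d j : ZMod p)) →
          ((small p k r ⌊(p : ℝ) ^ (ε / 2 ^ k) / 3⌋₊).ncard : ℝ) ≤ (p : ℝ) ^ ε ∧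
          ∀ E : ℕ, ⌊(p : ℝ) ^ (ε / 2 ^ k) / 3⌋₊ ≤ E →
            ∀ g : (ZMod p)ˣ, ∃ s : Fin N → (ZMod p)ˣ, (∀ i, s i ∈ small p k r E) ∧ ∏ i, s i = g := by
  classical
  set k := n0 ε with hk
  have hk2 : n0 ε ≤ 2 ^ k := Nat.lt_two_pow_self.le
  refine ⟨k, 3 * (mm ε + 1), ?_, fun D => ?_⟩
  · push_cast
    exact factors h0 h1
  have hfin : (Set.Finite {d : Fin k → ℕ | (∀ j, d j ≤ D) ∧ Indep k d}) := by
    refine (Set.Finite.subset (Set.finite_Iic (fun _ : Fin k => D)) ?_)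
    intro d hd
    exact fun j => hd.1 j
  have hev : ∀ᶠ x : ℝ in atTop, ∀ d ∈ {d : Fin k → ℕ | (∀ j, d j ≤ D) ∧ Indep k d},
      ∀ p : ℕ, (p : ℝ) = x → ∀ [Fact p.Prime],
      ∀ r : Fin k → ZMod p, (∀ j, r j ^ 2 = (d j : ZMod p)) → ∀ g : (ZMod p)ˣ,
        ∃ s : Fin (3 * (mm ε + 1)) → (ZMod p)ˣ,
          (∀ i, s i ∈ small p k r ⌊x ^ (ε / 2 ^ k) / 3⌋₊) ∧ ∏ i, s i = g := by
    rw [Filter.eventually_all_finite hfin]
    exact fun d hd => main_d h0 h1 k hk2 d hd.2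
  have hk0 : (0 : ℝ) < 2 ^ k := by positivity
  have hev2 := hev.and (ev_pow 0 (ε / 2 ^ k) 3 (by positivity))
  obtain ⟨X, hX⟩ := Filter.eventually_atTop.1 hev2
  refine ⟨max 1 ⌈X⌉₊, ?_⟩
  intro p hfact hp
  have hpX : X ≤ (p : ℝ) := (Nat.le_ceil X).trans (by exact_mod_cast (le_max_right _ _).trans hp)
  have hp1 : (1 : ℝ) ≤ p := by exact_mod_cast (le_max_left _ _).trans hp
  obtain ⟨h2, h3⟩ := hX p hpX
  refine fun d hd1 hd2 r hr => ⟨?_, ?_⟩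
  · have h4 := card_small p k ⌊(p : ℝ) ^ (ε / 2 ^ k) / 3⌋₊ r
    have h5 : ((2 * ⌊(p : ℝ) ^ (ε / 2 ^ k) / 3⌋₊ + 1 : ℕ) : ℝ) ≤ (p : ℝ) ^ (ε / 2 ^ k) := by
      push_cast
      have h6 : (⌊(p : ℝ) ^ (ε / 2 ^ k) / 3⌋₊ : ℝ) ≤ (p : ℝ) ^ (ε / 2 ^ k) / 3 :=
        Nat.floor_le (by positivity)
      rw [Real.rpow_zero, mul_one] at h3
      linarith
    have h7 : (((2 * ⌊(p : ℝ) ^ (ε / 2 ^ k) / 3⌋₊ + 1) ^ 2 ^ k : ℕ) : ℝ) ≤ (p : ℝ) ^ ε := by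
      push_cast at h5 ⊢
      calc (2 * (⌊(p : ℝ) ^ (ε / 2 ^ k) / 3⌋₊ : ℝ) + 1) ^ 2 ^ k ≤ ((p : ℝ) ^ (ε / 2 ^ k)) ^ 2 ^ k :=
            pow_le_pow_left₀ (by positivity) h5 _
        _ = (p : ℝ) ^ ε := by
            rw [← Real.rpow_natCast, ← Real.rpow_mul (by positivity)]
            push_cast
            rw [div_mul_cancel₀ _ hk0.ne']
    exact le_trans (by exact_mod_cast h4) h7
  · intro E hE g
    obtain ⟨s, hs1, hs2⟩ := h2 d ⟨hd1, hd2⟩ p rfl r hr g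
    exact ⟨s, fun i => small_mono p k r hE (hs1 i), hs2⟩

theorem main {ε : ℝ} (h0 : 0 < ε) (h1 : ε ≤ 1) : ∃ k N D p0 : ℕ, (N : ℝ) ≤ 12 / ε ∧
    ∀ (p : ℕ) [Fact p.Prime], p0 ≤ p →
      (∃ d : Fin k → ℕ, (∀ j, d j ≤ D) ∧ Indep k d ∧ ∃ r : Fin k → ZMod p, ∀ j, r j ^ 2 = (d j : ZMod p)) ∧
      ∀ d : Fin k → ℕ, (∀ j, d j ≤ D) → Indep k d → ∀ r : Fin k → ZMod p,
        (∀ j, r j ^ 2 = (d j : ZMod p)) →
          ((small p k r ⌊(p : ℝ) ^ (ε / 2 ^ k) / 3⌋₊).ncard : ℝ) ≤ (p : ℝ) ^ ε ∧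
          ∀ g : (ZMod p)ˣ, ∃ s : Fin N → (ZMod p)ˣ,
            (∀ i, s i ∈ small p k r ⌊(p : ℝ) ^ (ε / 2 ^ k) / 3⌋₊) ∧ ∏ i, s i = g := by
  obtain ⟨k, N, hN, h⟩ := main' h0 h1
  obtain ⟨D, hD⟩ := exists_dr k
  obtain ⟨p0, hp0⟩ := h D
  refine ⟨k, N, D, p0, hN, fun p hp hpp => ⟨hD p, fun d hd1 hd2 r hr => ?_⟩⟩
  obtain ⟨h2, h3⟩ := hp0 p hpp d hd1 hd2 r hr
  exact ⟨h2, h3 _ le_rfl⟩

end Pool.Agent.GenB
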