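import Mathlib

/-!
Fourier analysis on `(ZMod p)ˣ`: a weight with small nontrivial character sums, bounded values and
large mass has all residues as products of three points of its support.
-/

set_option autoImplicit false

namespace Pool.Agent.GenB

open Finset

variable (p : ℕ) [hp : Fact p.Prime]

private theorem norm_char (χ : DirichletCharacter ℂ p) (a : (ZMod p)ˣ) :
    ‖χ (a : ZMod p)‖ = 1 := DirichletCharacter.unit_norm_eq_one χ a

private theorem conj_char (χ : DirichletCharacter ℂ p) (a : (ZMod p)ˣ) :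
    (starRingEnd ℂ) (χ (a : ZMod p)) = χ ((a⁻¹ : (ZMod p)ˣ) : ZMod p) := by
  have h1 : χ (a : ZMod p) * χ ((a⁻¹ : (ZMod p)ˣ) : ZMod p) = 1 := by
    rw [← map_mul, Units.mul_inv, map_one]
  have h2 : χ (a : ZMod p) * (starRingEnd ℂ) (χ (a : ZMod p)) = 1 := by
    rw [Complex.mul_conj, Complex.normSq_eq_norm_sq, norm_char, one_pow, Complex.ofReal_one]
  have h0 : χ (a : ZMod p) ≠ 0 := by
    intro h; rw [h, zero_mul] at h1; exact zero_ne_one h1
  exact mul_left_cancel₀ h0 (h2.trans h1.symm)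

/-- orthogonality over units -/
theorem sum_char (a b : (ZMod p)ˣ) :
    ∑ χ : DirichletCharacter ℂ p, χ ((a⁻¹ : (ZMod p)ˣ) : ZMod p) * χ (b : ZMod p) =
      if a = b then ((p - 1 : ℕ) : ℂ) else 0 := by
  have : NeZero p := ⟨hp.out.ne_zero⟩
  have h := DirichletCharacter.sum_char_inv_mul_char_eq (R := ℂ) (n := p) a.isUnit (b : ZMod p)
  rw [Nat.totient_prime hp.out] at h
  have h2 : ((a⁻¹ : (ZMod p)ˣ) : ZMod p) = ((a : ZMod p))⁻¹ := by
    rw [← ZMod.inv_coe_unit]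
  rw [h2, h]
  by_cases hab : a = b
  · simp [hab]
  · have : (a : ZMod p) ≠ (b : ZMod p) := fun h => hab (Units.ext h)
    simp [hab, this]

/-- Parseval -/
theorem parseval (u : (ZMod p)ˣ → ℝ) :
    ∑ χ : DirichletCharacter ℂ p, ‖∑ a : (ZMod p)ˣ, (u a : ℂ) * χ (a : ZMod p)‖ ^ 2 =
      ((p - 1 : ℕ) : ℝ) * ∑ a, u a ^ 2 := by
  have h : ((∑ χ : DirichletCharacter ℂ p,
      ‖∑ a : (ZMod p)ˣ, (u a : ℂ) * χ (a : ZMod p)‖ ^ 2 : ℝ) : ℂ) =
      (((p - 1 : ℕ) : ℝ) * ∑ a, u a ^ 2 : ℝ) := by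
    push_cast
    have h1 : ∀ χ : DirichletCharacter ℂ p,
        ((‖∑ a : (ZMod p)ˣ, (u a : ℂ) * χ (a : ZMod p)‖ : ℂ)) ^ 2 =
        ∑ a : (ZMod p)ˣ, ∑ b : (ZMod p)ˣ, (u a : ℂ) * (u b : ℂ) *
          (χ ((a⁻¹ : (ZMod p)ˣ) : ZMod p) * χ (b : ZMod p)) := by
      intro χ
      rw [← Complex.conj_mul', map_sum, Finset.sum_mul_sum]
      refine Finset.sum_congr rfl fun a _ => Finset.sum_congr rfl fun b _ => ?_
      rw [map_mul, Complex.conj_ofReal, conj_char]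
      ring
    simp_rw [h1]
    rw [Finset.sum_comm]
    have h2 : ∀ a : (ZMod p)ˣ, ∑ χ : DirichletCharacter ℂ p, ∑ b : (ZMod p)ˣ,
        (u a : ℂ) * (u b : ℂ) * (χ ((a⁻¹ : (ZMod p)ˣ) : ZMod p) * χ (b : ZMod p)) =
        ((p - 1 : ℕ) : ℂ) * (u a : ℂ) ^ 2 := by
      intro a
      rw [Finset.sum_comm]
      simp_rw [← Finset.mul_sum, sum_char]
      simp only [mul_ite, mul_zero, Finset.sum_ite_eq, Finset.mem_univ, if_true]
      ring
    rw [Finset.sum_congr rfl fun a _ => h2 a, ← Finset.mul_sum]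
  exact_mod_cast h

/-- the third power of the transform and the number of representations -/
theorem cube_sum (u : (ZMod p)ˣ → ℝ) (g : (ZMod p)ˣ) :
    ∑ χ : DirichletCharacter ℂ p, χ ((g⁻¹ : (ZMod p)ˣ) : ZMod p) *
      (∑ a : (ZMod p)ˣ, (u a : ℂ) * χ (a : ZMod p)) ^ 3 =
      ((p - 1 : ℕ) : ℂ) * ∑ a : (ZMod p)ˣ, ∑ b : (ZMod p)ˣ, ∑ c : (ZMod p)ˣ,
        if g = a * b * c then ((u a * u b * u c : ℝ) : ℂ) else 0 := by
  have h1 : ∀ χ : DirichletCharacter ℂ p, χ ((g⁻¹ : (ZMod p)ˣ) : ZMod p) *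
      (∑ a : (ZMod p)ˣ, (u a : ℂ) * χ (a : ZMod p)) ^ 3 =
      ∑ a : (ZMod p)ˣ, ∑ b : (ZMod p)ˣ, ∑ c : (ZMod p)ˣ, ((u a * u b * u c : ℝ) : ℂ) *
        (χ ((g⁻¹ : (ZMod p)ˣ) : ZMod p) * χ ((a * b * c : (ZMod p)ˣ) : ZMod p)) := by
    intro χ
    rw [pow_three', Finset.sum_mul_sum, Finset.sum_mul, Finset.mul_sum]
    refine Finset.sum_congr rfl fun a _ => ?_
    rw [Finset.sum_mul, Finset.mul_sum]
    refine Finset.sum_congr rfl fun b _ => ?_
    rw [Finset.mul_sum, Finset.mul_sum]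
    refine Finset.sum_congr rfl fun c _ => ?_
    push_cast
    rw [map_mul, map_mul]
    ring
  simp_rw [h1]
  rw [Finset.sum_comm, Finset.mul_sum]
  refine Finset.sum_congr rfl fun a _ => ?_
  rw [Finset.sum_comm, Finset.mul_sum]
  refine Finset.sum_congr rfl fun b _ => ?_
  rw [Finset.sum_comm, Finset.mul_sum]
  refine Finset.sum_congr rfl fun c _ => ?_
  rw [← Finset.mul_sum, sum_char]
  split_ifs <;> ring

/-- A bounded weight with small nontrivial character sums and large mass: every residue is a product of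
three points of its support. -/
theorem triple_cover (u : (ZMod p)ˣ → ℝ) (hu : ∀ a, 0 ≤ u a) (A K : ℝ) (hA : ∀ a, u a ≤ A)
    (hK : ∀ χ : DirichletCharacter ℂ p, χ ≠ 1 →
      ‖∑ a : (ZMod p)ˣ, (u a : ℂ) * χ (a : ZMod p)‖ ≤ K)
    (hK0 : 0 ≤ K)
    (hbig : K * (p * A * ∑ a, u a) < (∑ a, u a) ^ 3) (g : (ZMod p)ˣ) :
    ∃ a b c : (ZMod p)ˣ, a * b * c = g ∧ 0 < u a ∧ 0 < u b ∧ 0 < u c := by
  by_contra hno
  push Not at hno
  have hzero : ∀ a b c : (ZMod p)ˣ, g = a * b * c → u a * u b * u c = 0 := by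
    intro a b c h
    by_contra hne
    have ha : 0 < u a := lt_of_le_of_ne (hu a) fun h => hne (by rw [← h]; ring)
    have hb : 0 < u b := lt_of_le_of_ne (hu b) fun h => hne (by rw [← h]; ring)
    have hc : 0 < u c := lt_of_le_of_ne (hu c) fun h => hne (by rw [← h]; ring)
    exact absurd (hno a b c h.symm ha hb) (not_le.mpr hc)
  have hcube := cube_sum p u g
  have hr : (∑ a : (ZMod p)ˣ, ∑ b : (ZMod p)ˣ, ∑ c : (ZMod p)ˣ,
        if g = a * b * c then ((u a * u b * u c : ℝ) : ℂ) else 0) = 0 := by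
    refine Finset.sum_eq_zero fun a _ => Finset.sum_eq_zero fun b _ => Finset.sum_eq_zero fun c _ => ?_
    split_ifs with h
    · rw [hzero a b c h]; simp
    · rfl
  rw [hr, mul_zero] at hcube
  set U : DirichletCharacter ℂ p → ℂ := fun χ => ∑ a : (ZMod p)ˣ, (u a : ℂ) * χ (a : ZMod p) with hU
  set s : ℝ := ∑ a, u a with hs
  have hs0 : 0 ≤ s := Finset.sum_nonneg fun a _ => hu a
  have hU1 : U 1 = (s : ℂ) := by
    simp only [hU, hs]
    push_cast
    refine Finset.sum_congr rfl fun a _ => ?_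
    rw [MulChar.one_apply_coe, mul_one]
  classical
  have hsum : (s : ℂ) ^ 3 = - ∑ χ ∈ (Finset.univ : Finset (DirichletCharacter ℂ p)).erase 1,
      χ ((g⁻¹ : (ZMod p)ˣ) : ZMod p) * U χ ^ 3 := by
    have h := Finset.add_sum_erase (Finset.univ : Finset (DirichletCharacter ℂ p))
      (fun χ => χ ((g⁻¹ : (ZMod p)ˣ) : ZMod p) * U χ ^ 3) (Finset.mem_univ 1)
    rw [hU1, MulChar.one_apply_coe, one_mul] at h
    have h2 : (s : ℂ) ^ 3 + ∑ χ ∈ (Finset.univ : Finset (DirichletCharacter ℂ p)).erase 1,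
      χ ((g⁻¹ : (ZMod p)ˣ) : ZMod p) * U χ ^ 3 = 0 := h.trans hcube
    exact eq_neg_of_add_eq_zero_left h2
  have hpars := parseval p u
  have hbound : s ^ 3 ≤ K * (((p - 1 : ℕ) : ℝ) * ∑ a, u a ^ 2) := by
    have h1 : s ^ 3 = ‖(s : ℂ) ^ 3‖ := by
      rw [norm_pow, Complex.norm_real, Real.norm_of_nonneg hs0]
    rw [h1, hsum, norm_neg, ← hpars, Finset.mul_sum]
    refine (norm_sum_le _ _).trans ?_
    refine (Finset.sum_le_sum (g := fun χ => K * ‖U χ‖ ^ 2) fun χ hχ => ?_).trans ?_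
    · rw [norm_mul, norm_char, one_mul, norm_pow]
      have := hK χ (Finset.ne_of_mem_erase hχ)
      calc ‖U χ‖ ^ 3 = ‖U χ‖ * ‖U χ‖ ^ 2 := by ring
        _ ≤ K * ‖U χ‖ ^ 2 := mul_le_mul_of_nonneg_right this (by positivity)
    · exact Finset.sum_le_sum_of_subset_of_nonneg (Finset.erase_subset _ _)
        fun χ _ _ => mul_nonneg hK0 (by positivity)
  have hsq : ∑ a, u a ^ 2 ≤ A * s := by
    rw [hs, Finset.mul_sum]
    refine Finset.sum_le_sum fun a _ => ?_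
    rw [pow_two]
    exact mul_le_mul_of_nonneg_right (hA a) (hu a)
  have hA0 : 0 ≤ A := (hu 1).trans (hA 1)
  have hp1 : (((p - 1 : ℕ) : ℝ)) ≤ p := by exact_mod_cast Nat.sub_le p 1
  have : s ^ 3 ≤ K * (p * A * s) := by
    refine hbound.trans (mul_le_mul_of_nonneg_left ?_ hK0)
    calc ((p - 1 : ℕ) : ℝ) * ∑ a, u a ^ 2 ≤ p * (A * s) :=
          mul_le_mul hp1 hsq (Finset.sum_nonneg fun a _ => by positivity) (by positivity)
      _ = p * A * s := by ring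
  linarith

end Pool.Agent.GenB
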