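import Pool.Agent.GenF.Defs

/-!
Multiquadratic fields: the products of square roots are a basis.
-/

set_option autoImplicit false

namespace Pool.Agent.GenB

open Finset Pool.Agent.GenF Polynomial

section field

variable {K : Type} [Field K] [Algebra ℚ K] {k : ℕ} (α : Fin k → K) (d : Fin k → ℕ)

omit [Algebra ℚ K] in
/-- product of two of the `e J` -/
theorem e_mul (hα : ∀ j, α j ^ 2 = (d j : K)) (J J' : Finset (Fin k)) :
    (∏ j ∈ J, α j) * ∏ j ∈ J', α j = ((∏ j ∈ J ∩ J', d j : ℕ) : K) * ∏ j ∈ symmDiff J J', α j := by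
  classical
  have h1 : (∏ j ∈ J, α j) = (∏ j ∈ J ∩ J', α j) * ∏ j ∈ J \ J', α j := by
    rw [← Finset.prod_union (Finset.disjoint_left.2 fun j h1 h2 => by
      rw [Finset.mem_inter] at h1; rw [Finset.mem_sdiff] at h2; exact h2.2 h1.2)]
    congr 1
    ext j; simp only [Finset.mem_union, Finset.mem_inter, Finset.mem_sdiff]; tauto
  have h2 : (∏ j ∈ J', α j) = (∏ j ∈ J ∩ J', α j) * ∏ j ∈ J' \ J, α j := by
    rw [← Finset.prod_union (Finset.disjoint_left.2 fun j h1 h2 => by
      rw [Finset.mem_inter] at h1; rw [Finset.mem_sdiff] at h2; exact h2.2 h1.1)]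
    congr 1
    ext j; simp only [Finset.mem_union, Finset.mem_inter, Finset.mem_sdiff]; tauto
  have h3 : (∏ j ∈ symmDiff J J', α j) = (∏ j ∈ J \ J', α j) * ∏ j ∈ J' \ J, α j := by
    rw [← Finset.prod_union (Finset.disjoint_left.2 fun j h1 h2 => by
      rw [Finset.mem_sdiff] at h1 h2; exact h2.2 h1.1)]
    rfl
  have h4 : ((∏ j ∈ J ∩ J', d j : ℕ) : K) = (∏ j ∈ J ∩ J', α j) * ∏ j ∈ J ∩ J', α j := by
    push_cast
    rw [← Finset.prod_mul_distrib]
    exact Finset.prod_congr rfl fun j _ => by rw [← hα j, pow_two]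
  rw [h4, h3]
  nth_rewrite 1 [h1]
  nth_rewrite 1 [h2]
  ring

theorem span_mul_mem (hα : ∀ j, α j ^ 2 = (d j : K)) {x y : K}
    (hx : x ∈ Submodule.span ℚ (Set.range fun J : Finset (Fin k) => ∏ j ∈ J, α j))
    (hy : y ∈ Submodule.span ℚ (Set.range fun J : Finset (Fin k) => ∏ j ∈ J, α j)) :
    x * y ∈ Submodule.span ℚ (Set.range fun J : Finset (Fin k) => ∏ j ∈ J, α j) := by
  classical
  induction hx using Submodule.span_induction with
  | zero => rw [zero_mul]; exact Submodule.zero_mem _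
  | add a b _ _ ha hb => rw [add_mul]; exact Submodule.add_mem _ ha hb
  | smul c a _ ha => rw [smul_mul_assoc]; exact Submodule.smul_mem _ _ ha
  | mem a ha =>
    obtain ⟨J, rfl⟩ := ha
    induction hy using Submodule.span_induction with
    | zero => rw [mul_zero]; exact Submodule.zero_mem _
    | add a b _ _ ha hb => rw [mul_add]; exact Submodule.add_mem _ ha hb
    | smul c a _ ha => rw [mul_smul_comm]; exact Submodule.smul_mem _ _ ha
    | mem b hb =>
      obtain ⟨J', rfl⟩ := hb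
      simp only
      rw [e_mul α d hα]
      have : ((∏ j ∈ J ∩ J', d j : ℕ) : K) * ∏ j ∈ symmDiff J J', α j =
          ((∏ j ∈ J ∩ J', d j : ℕ) : ℚ) • ∏ j ∈ symmDiff J J', α j := by
        rw [Algebra.smul_def, map_natCast]
      rw [this]
      exact Submodule.smul_mem _ _ (Submodule.subset_span ⟨_, rfl⟩)

/-- no product is rational -/
theorem e_not_rat (hα : ∀ j, α j ^ 2 = (d j : K)) (hd : Indep k d) (J : Finset (Fin k))
    (hJ : J.Nonempty) (q : ℚ) : algebraMap ℚ K q ≠ ∏ j ∈ J, α j := by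
  intro h
  apply hd J hJ
  rw [← Rat.isSquare_natCast_iff]
  refine ⟨q, ?_⟩
  apply (algebraMap ℚ K).injective
  rw [map_mul, h, map_natCast, ← pow_two, ← Finset.prod_pow]
  push_cast
  exact Finset.prod_congr rfl fun j _ => (hα j).symm

theorem alpha_ne_zero (hα : ∀ j, α j ^ 2 = (d j : K)) (hd : Indep k d) (j : Fin k) : α j ≠ 0 := by
  intro h
  refine e_not_rat α d hα hd {j} ⟨j, Finset.mem_singleton_self j⟩ 0 ?_
  rw [map_zero, Finset.prod_singleton, h]

theorem sigma_alpha (hα : ∀ j, α j ^ 2 = (d j : K)) (σ : K ≃ₐ[ℚ] K) (j : Fin k) :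
    σ (α j) = α j ∨ σ (α j) = - α j := by
  apply sq_eq_sq_iff_eq_or_eq_neg.1
  rw [← map_pow, hα, map_natCast]

theorem linInd [IsGalois ℚ K] [FiniteDimensional ℚ K] (hα : ∀ j, α j ^ 2 = (d j : K))
    (hd : Indep k d) : LinearIndependent ℚ (fun J : Finset (Fin k) => ∏ j ∈ J, α j) := by
  classical
  have hne : ∀ J : Finset (Fin k), (∏ j ∈ J, α j) ≠ 0 := fun J =>
    Finset.prod_ne_zero_iff.2 fun j _ => alpha_ne_zero α d hα hd j
  -- the characters
  have hpm : ∀ (J : Finset (Fin k)) (σ : K ≃ₐ[ℚ] K),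
      σ (∏ j ∈ J, α j) / (∏ j ∈ J, α j) = 1 ∨ σ (∏ j ∈ J, α j) / (∏ j ∈ J, α j) = -1 := by
    intro J σ
    rw [map_prod, ← Finset.prod_div_distrib]
    induction J using Finset.induction_on with
    | empty => left; simp
    | insert a s ha ih =>
      rw [Finset.prod_insert ha]
      have h0 := alpha_ne_zero α d hα hd a
      rcases sigma_alpha α d hα σ a with h | h
      · rw [h, div_self h0, one_mul]; exact ih
      · rw [h, neg_div, div_self h0]
        rcases ih with h2 | h2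
        · right; rw [h2]; ring
        · left; rw [h2]; ring
  have hfix : ∀ (J : Finset (Fin k)) (σ τ : K ≃ₐ[ℚ] K),
      τ (σ (∏ j ∈ J, α j) / (∏ j ∈ J, α j)) = σ (∏ j ∈ J, α j) / (∏ j ∈ J, α j) := by
    intro J σ τ
    rcases hpm J σ with h | h <;> rw [h] <;> simp
  let χ : Finset (Fin k) → ((K ≃ₐ[ℚ] K) →* K) := fun J =>
    { toFun := fun σ => σ (∏ j ∈ J, α j) / (∏ j ∈ J, α j)
      map_one' := by rw [AlgEquiv.one_apply, div_self (hne J)]
      map_mul' := by
        intro σ τ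
        have h1 : τ (∏ j ∈ J, α j) = (τ (∏ j ∈ J, α j) / (∏ j ∈ J, α j)) * ∏ j ∈ J, α j := by
          rw [div_mul_cancel₀ _ (hne J)]
        rw [AlgEquiv.mul_apply, h1, map_mul, hfix]
        rw [← h1, mul_comm, mul_div_assoc, mul_comm]
        ring }
  have hχ : ∀ J σ, χ J σ = σ (∏ j ∈ J, α j) / (∏ j ∈ J, α j) := fun J σ => rfl
  have hinj : Function.Injective χ := by
    intro J J' h
    by_contra hJJ
    have hnonempty : (symmDiff J J').Nonempty := by
      rw [Finset.nonempty_iff_ne_empty]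
      intro h0
      exact hJJ (symmDiff_eq_bot.1 h0)
    have hrat : ∀ σ : K ≃ₐ[ℚ] K, σ ((∏ j ∈ J, α j) * ∏ j ∈ J', α j) = (∏ j ∈ J, α j) * ∏ j ∈ J', α j := by
      intro σ
      have h1 : σ (∏ j ∈ J, α j) = χ J σ * ∏ j ∈ J, α j := by
        rw [hχ, div_mul_cancel₀ _ (hne J)]
      have h2 : σ (∏ j ∈ J', α j) = χ J σ * ∏ j ∈ J', α j := by
        rw [h, hχ, div_mul_cancel₀ _ (hne J')]
      have h3 : χ J σ * χ J σ = 1 := by
        rcases hpm J σ with h4 | h4 <;> rw [hχ, h4] <;> ring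
      rw [map_mul, h1, h2]
      calc χ J σ * (∏ j ∈ J, α j) * (χ J σ * ∏ j ∈ J', α j)
          = (χ J σ * χ J σ) * ((∏ j ∈ J, α j) * ∏ j ∈ J', α j) := by ring
        _ = _ := by rw [h3, one_mul]
    have h4 := (IsGalois.mem_range_algebraMap_iff_fixed (F := ℚ) (E := K)
      ((∏ j ∈ J, α j) * ∏ j ∈ J', α j)).2 hrat
    obtain ⟨q, hq⟩ := h4
    rw [e_mul α d hα] at hq
    have hc : ((∏ j ∈ J ∩ J', d j : ℕ) : K) ≠ 0 := by
      push_cast
      rw [Finset.prod_ne_zero_iff]
      intro j _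
      rw [← hα j]
      exact pow_ne_zero 2 (alpha_ne_zero α d hα hd j)
    refine e_not_rat α d hα hd (symmDiff J J') hnonempty (q / ((∏ j ∈ J ∩ J', d j : ℕ) : ℚ)) ?_
    rw [map_div₀, map_natCast, hq, mul_comm, mul_div_assoc, div_self hc, mul_one]
  have hli := (linearIndependent_monoidHom (K ≃ₐ[ℚ] K) K).comp χ hinj
  rw [Fintype.linearIndependent_iff] at hli ⊢
  intro c hc J
  have h1 := hli (fun J => (algebraMap ℚ K (c J)) * ∏ j ∈ J, α j) ?_ J
  · rcases mul_eq_zero.1 h1 with h2 | h2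
    · exact (algebraMap ℚ K).injective (h2.trans (map_zero _).symm)
    · exact absurd h2 (hne J)
  · funext σ
    rw [Finset.sum_apply, Pi.zero_apply]
    have h2 := congrArg σ hc
    rw [map_zero, map_sum] at h2
    rw [← h2]
    refine Finset.sum_congr rfl fun J _ => ?_
    show (algebraMap ℚ K (c J) * ∏ j ∈ J, α j) * (σ (∏ j ∈ J, α j) / (∏ j ∈ J, α j)) = σ (c J • ∏ j ∈ J, α j)
    rw [map_smul, Algebra.smul_def]
    have := hne J
    field_simp

end field

/-- the polynomial -/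
noncomputable def mqf (k : ℕ) (d : Fin k → ℕ) : ℚ[X] := ∏ j, (X ^ 2 - C (d j : ℚ))

theorem mqf_ne_zero (k : ℕ) (d : Fin k → ℕ) : mqf k d ≠ 0 := by
  rw [mqf, Finset.prod_ne_zero_iff]
  intro j _
  exact X_pow_sub_C_ne_zero two_pos _

theorem exists_sf (k : ℕ) (d : Fin k → ℕ) : ∃ (K : Type) (_ : Field K) (_ : Algebra ℚ K),
    IsSplittingField ℚ K (mqf k d) :=
  ⟨_, _, _, Polynomial.IsSplittingField.splittingField (mqf k d)⟩

theorem exists_alpha (k : ℕ) (d : Fin k → ℕ) {K : Type} [Field K] [Algebra ℚ K]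
    [h : IsSplittingField ℚ K (mqf k d)] (j : Fin k) : ∃ a : K, a ^ 2 = (d j : K) := by
  have h1 : (X ^ 2 - C (d j : ℚ)) ∣ mqf k d := Finset.dvd_prod_of_mem _ (Finset.mem_univ j)
  have h2 : ((X ^ 2 - C (d j : ℚ)).map (algebraMap ℚ K)).Splits :=
    (IsSplittingField.splits K (mqf k d)).of_dvd (map_ne_zero (mqf_ne_zero k d)) (Polynomial.map_dvd _ h1)
  have h3 : ((X ^ 2 - C (d j : ℚ)).map (algebraMap ℚ K)).degree ≠ 0 := by
    rw [Polynomial.degree_map, degree_X_pow_sub_C two_pos]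
    norm_num
  obtain ⟨a, ha⟩ := h2.exists_eval_eq_zero h3
  refine ⟨a, ?_⟩
  rw [Polynomial.map_sub, Polynomial.map_pow, Polynomial.map_X, Polynomial.map_C, eval_sub, eval_pow,
    eval_X, eval_C, map_natCast, sub_eq_zero] at ha
  exact ha

theorem span_top (k : ℕ) (d : Fin k → ℕ) {K : Type} [Field K] [Algebra ℚ K]
    [h : IsSplittingField ℚ K (mqf k d)] (α : Fin k → K) (hα : ∀ j, α j ^ 2 = (d j : K)) :
    ⊤ ≤ Submodule.span ℚ (Set.range fun J : Finset (Fin k) => ∏ j ∈ J, α j) := by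
  classical
  intro x _
  have hx : x ∈ Algebra.adjoin ℚ ((mqf k d).rootSet K) := by
    rw [IsSplittingField.adjoin_rootSet K (mqf k d)]; trivial
  induction hx using Algebra.adjoin_induction with
  | mem y hy =>
    rw [mem_rootSet] at hy
    have h1 : ∃ j, y ^ 2 = (d j : K) := by
      have h2 : ∏ j, (y ^ 2 - (d j : K)) = 0 := by
        have h3 := hy.2
        have h4 : aeval y (mqf k d) = ∏ j, (y ^ 2 - (d j : K)) := by
          rw [mqf, map_prod]
          refine Finset.prod_congr rfl fun j _ => ?_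
          rw [map_sub, map_pow, aeval_X, aeval_C, map_natCast]
        rw [← h4]; exact h3
      rw [Finset.prod_eq_zero_iff] at h2
      obtain ⟨j, _, hj⟩ := h2
      exact ⟨j, sub_eq_zero.1 hj⟩
    obtain ⟨j, hj⟩ := h1
    rw [← hα j] at hj
    have h2 : α j ∈ Submodule.span ℚ (Set.range fun J : Finset (Fin k) => ∏ j ∈ J, α j) :=
      Submodule.subset_span ⟨{j}, by simp⟩
    rcases sq_eq_sq_iff_eq_or_eq_neg.1 hj with h | h
    · rw [h]; exact h2
    · rw [h]; exact Submodule.neg_mem _ h2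
  | algebraMap q =>
    have h2 : (1 : K) ∈ Submodule.span ℚ (Set.range fun J : Finset (Fin k) => ∏ j ∈ J, α j) :=
      Submodule.subset_span ⟨∅, by simp⟩
    have := Submodule.smul_mem _ q h2
    rwa [Algebra.smul_def, mul_one] at this
  | add y z _ _ hy hz => exact Submodule.add_mem _ (hy trivial) (hz trivial)
  | mul y z _ _ hy hz => exact span_mul_mem α d hα (hy trivial) (hz trivial)

theorem exists_field (k : ℕ) (d : Fin k → ℕ) (hd : Indep k d) :
    ∃ (K : Type) (_ : Field K) (_ : NumberField K) (_ : IsGalois ℚ K) (α : Fin k → K),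
      (∀ j, α j ^ 2 = (d j : K)) ∧
      LinearIndependent ℚ (fun J : Finset (Fin k) => ∏ j ∈ J, α j) ∧
      ⊤ ≤ Submodule.span ℚ (Set.range fun J : Finset (Fin k) => ∏ j ∈ J, α j) := by
  obtain ⟨K, hK, A, hsp⟩ := exists_sf k d
  have hchar : CharZero K := algebraRat.charZero K
  obtain rfl : A = DivisionRing.toRatAlgebra := Subsingleton.elim _ _
  have hfin : FiniteDimensional ℚ K := IsSplittingField.finiteDimensional K (mqf k d)
  have hnorm : Normal ℚ K := Normal.of_isSplittingField (mqf k d)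
  have hgal : IsGalois ℚ K := { to_isSeparable := inferInstance, to_normal := hnorm }
  choose α hα using exists_alpha k d (K := K)
  exact ⟨K, hK, { to_charZero := hchar, to_finiteDimensional := hfin }, hgal, α, hα,
    linInd α d hα hd, span_top k d α hα⟩

end Pool.Agent.GenB
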