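import Mathlib

/-!
The parameters, for `0 < ε ≤ 1`.
-/

set_option autoImplicit false

namespace Pool.Agent.GenB

/-- exponent of the upper end of the window -/
noncomputable def e1 (ε : ℝ) : ℝ := 8 / 10 * ε
/-- exponent of the lower end of the window -/
noncomputable def al (ε : ℝ) : ℝ := 8 / 10 * ε * (1 - ε / 25)
/-- exponent of the cofactor -/
noncomputable def e2 (ε : ℝ) : ℝ := 9 / 10 * ε
/-- number of prime ideals -/
noncomputable def mm (ε : ℝ) : ℕ := ⌈(9 / 4 - e2 ε) / al ε⌉₊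
/-- bound for the number of prime ideals of the window which contain an element -/
noncomputable def VV (ε : ℝ) : ℕ := ⌊(9 / 4) / al ε⌋₊ + 1
/-- lower bound for the sum of the inverse norms of the window -/
noncomputable def s0 (ε : ℝ) : ℝ := (e1 ε - al ε) / (2 * e1 ε)
/-- the degree needed -/
noncomputable def n0 (ε : ℝ) : ℕ := ⌊8 * (2 * (VV ε : ℝ) ^ mm ε / s0 ε ^ mm ε) ^ 3⌋₊ + 1

variable {ε : ℝ} (h0 : 0 < ε) (h1 : ε ≤ 1)

include h0 h1

theorem al_pos : 0 < al ε := by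
  have : 0 < 1 - ε / 25 := by linarith
  unfold al; positivity

theorem al_lt_e1 : al ε < e1 ε := by
  unfold al e1
  nlinarith

theorem e1_pos : 0 < e1 ε := (al_pos h0 h1).trans (al_lt_e1 h0 h1)

theorem s0_pos : 0 < s0 ε := by
  have h2 := al_lt_e1 h0 h1
  have h3 := e1_pos h0 h1
  unfold s0
  exact div_pos (by linarith) (by linarith)

theorem mm_al : 9 / 4 - e2 ε ≤ mm ε * al ε := by
  have h2 := al_pos h0 h1
  have h3 : (9 / 4 - e2 ε) / al ε ≤ mm ε := Nat.le_ceil _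
  rwa [div_le_iff₀ h2] at h3

theorem mm_lt : (mm ε : ℝ) < (9 / 4 - e2 ε) / al ε + 1 := by
  have h2 := al_pos h0 h1
  refine Nat.ceil_lt_add_one ?_
  have h4 : 0 ≤ 9 / 4 - e2 ε := by unfold e2; linarith
  positivity

theorem mm_e1 : mm ε * e1 ε < 9 / 4 := by
  have h2 := al_pos h0 h1
  have h3 := mm_lt h0 h1
  have h4 := e1_pos h0 h1
  have h5 : (mm ε : ℝ) * e1 ε < ((9 / 4 - e2 ε) / al ε + 1) * e1 ε :=
    mul_lt_mul_of_pos_right h3 h4
  refine h5.trans_le ?_
  have h6 : ((9 / 4 - e2 ε) / al ε + 1) * e1 ε = ((9 / 4 - e2 ε) + al ε) * e1 ε / al ε := by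
    field_simp
  rw [h6, div_le_iff₀ h2]
  unfold e1 al e2
  nlinarith [mul_pos h0 h0, mul_pos (mul_pos h0 h0) h0]

theorem VV_al : 9 / 4 < VV ε * al ε := by
  have h2 := al_pos h0 h1
  have h3 : (9 / 4) / al ε < VV ε := by
    unfold VV
    push_cast
    exact Nat.lt_floor_add_one _
  rwa [div_lt_iff₀ h2] at h3

theorem factors : 3 * ((mm ε : ℝ) + 1) ≤ 12 / ε := by
  have h2 := al_pos h0 h1
  have h3 := mm_lt h0 h1
  have h4 : (9 / 4 - e2 ε) / al ε ≤ 3 / ε - 1 := by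
    rw [div_le_iff₀ h2]
    unfold e2 al
    have h5 : (3 / ε - 1) * (8 / 10 * ε * (1 - ε / 25)) = (3 - ε) * (8 / 10 * (1 - ε / 25)) := by
      field_simp
    rw [h5]
    nlinarith
  have h5 : 12 / ε = 3 * (4 / ε) := by ring
  have h6 : 4 / ε = 3 / ε + 1 / ε := by ring
  have h7 : 1 ≤ 1 / ε := by rw [le_div_iff₀ h0]; linarith
  rw [h5, h6]
  nlinarith

theorem n0_spec (n : ℕ) (hn : n0 ε ≤ n) (M T : ℝ) (hM : 0 < M)
    (hT : s0 ε ^ mm ε * M ≤ 2 * (VV ε : ℝ) ^ mm ε * T) : 8 * M ^ 3 < n * T ^ 3 := by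
  have hs := s0_pos h0 h1
  have hV : (0 : ℝ) < VV ε := by unfold VV; positivity
  set S := s0 ε ^ mm ε with hS
  set W := (VV ε : ℝ) ^ mm ε with hW
  have hS0 : 0 < S := by positivity
  have hW0 : 0 < W := by positivity
  have h2 : 8 * (2 * W / S) ^ 3 < n := by
    have h3 : 8 * (2 * W / S) ^ 3 < (n0 ε : ℝ) := by
      unfold n0
      push_cast
      exact Nat.lt_floor_add_one _
    exact h3.trans_le (by exact_mod_cast hn)
  have h4 : M ≤ (2 * W / S) * T := by
    rw [div_mul_eq_mul_div, le_div_iff₀ hS0]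
    linarith
  have hT0 : 0 < T := by
    by_contra h
    push Not at h
    have : (2 * W / S) * T ≤ 0 := mul_nonpos_of_nonneg_of_nonpos (by positivity) h
    linarith
  calc 8 * M ^ 3 ≤ 8 * ((2 * W / S) * T) ^ 3 := by
        have := pow_le_pow_left₀ hM.le h4 3
        linarith
    _ = (8 * (2 * W / S) ^ 3) * T ^ 3 := by ring
    _ < n * T ^ 3 := mul_lt_mul_of_pos_right h2 (by positivity)

end Pool.Agent.GenB
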