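import Pool.Agent.GenB.Trip
import Pool.Agent.GenB.Casc2
import Pool.Agent.GenB.Dense
import Pool.Agent.GenB.Asym
import Pool.Agent.GenB.Par

/-!
Every residue is a product of `3 (m + 1) ≤ 12 / ε` images of elements of size at most `p ^ ε`.
-/

set_option autoImplicit false

namespace Pool.Agent.GenB

open Finset Filter Pool.Agent.GenF

variable {O : Type} [CommRing O] [IsDedekindDomain O] [Module.Free ℤ O] [Module.Finite ℤ O]
  [CharZero O] {n : ℕ} (b : Module.Basis (Fin n) ℤ O)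

/-- a dense set of elements divisible by `m` ideals of the window -/
theorem dense (hn : 0 < n) (hH : HMert O) {ε : ℝ} (h0 : 0 < ε) (h1 : ε ≤ 1) :
    ∀ᶠ x : ℝ in atTop, ∀ M : ℕ, x ^ (9 / 4 : ℝ) ≤ (M : ℝ) ^ n → (M : ℝ) ^ n ≤ 2 * x ^ (9 / 4 : ℝ) →
      ∃ T : Finset O, T ⊆ box b 0 M ∧
      (∀ y ∈ T, y ≠ 0 ∧ ∃ l : Fin (mm ε) → Ideal O,
        (∀ i, l i ∈ wnd O (x ^ al ε) (x ^ e1 ε)) ∧ y ∈ ∏ i, l i) ∧
      s0 ε ^ mm ε * (M : ℝ) ^ n ≤ 2 * (VV ε : ℝ) ^ mm ε * T.card := by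
  obtain ⟨C, hC, hcount⟩ := count_real b hn
  obtain ⟨C', hC', hnorm⟩ := exists_norm_bound b
  have hal := al_pos h0 h1
  have hae := al_lt_e1 h0 h1
  have he1 := e1_pos h0 h1
  have hm := mm_e1 h0 h1
  have hV := VV_al h0 h1
  filter_upwards [hH (al ε) (e1 ε) hal hae, ev_pow (mm ε * e1 ε) (9 / 4) 4 hm,
    ev_root n hn (8 * n) C (mm ε * e1 ε) (9 / 4) (by positivity) (by linarith) (by norm_num) hm,
    ev_pow (9 / 4) (VV ε * al ε) (2 * C' + 1) hV, eventually_ge_atTop (1 : ℝ)] with x hx1 hx2 hx3 hx4 hx5 M hM1 hM2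
  have hx0 : 0 < x := by linarith
  refine dense_of b hn (wnd O (x ^ al ε) (x ^ e1 ε))
    (fun l hl => wnd_ne_bot (Real.rpow_nonneg hx0.le _) (Real.rpow_nonneg hx0.le _) hl) (s0 ε)
    (s0_pos h0 h1).le hx1 (mm ε) (VV ε) M ?_ ?_
  · intro l hl
    have hlne : ∏ i, l i ≠ ⊥ := by
      rw [Ne, ← Ideal.zero_eq_bot, Finset.prod_eq_zero_iff]
      rintro ⟨i, _, hi⟩
      exact wnd_ne_bot (Real.rpow_nonneg hx0.le _) (Real.rpow_nonneg hx0.le _) (hl i) hi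
    refine hcount (x ^ ((mm ε : ℝ) * e1 ε)) (x ^ (9 / 4 : ℝ)) M
      (Real.one_le_rpow hx5 (by positivity)) hx2 hM1 hx3 _ hlne ?_
    rw [map_prod]
    push_cast
    have h2 : ∏ i : Fin (mm ε), (Ideal.absNorm (l i) : ℝ) ≤ ∏ _i : Fin (mm ε), x ^ e1 ε :=
      Finset.prod_le_prod (fun _ _ => Nat.cast_nonneg _) fun i _ =>
        ((mem_wnd (Real.rpow_nonneg hx0.le _)).1 (hl i)).2.2
    refine h2.trans (le_of_eq ?_)
    rw [Finset.prod_const, Finset.card_univ, Fintype.card_fin, ← Real.rpow_natCast, ← Real.rpow_mul hx0.le]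
    ring_nf
  · intro y hy hy0
    have hM0 : 0 < M := by
      rcases Nat.eq_zero_or_pos M with h | h
      · subst h
        rw [Nat.cast_zero, zero_pow hn.ne'] at hM1
        have := Real.rpow_pos_of_pos hx0 (9 / 4 : ℝ)
        linarith
      · exact h
    refine card_wnd_mem _ _ (Real.one_le_rpow hx5 hal.le) (Real.rpow_nonneg hx0.le _) (VV ε) y hy0 ?_
    have h2 : ((Algebra.norm ℤ y).natAbs : ℝ) ≤ C' * (nrm b y : ℝ) ^ n := by
      exact_mod_cast hnorm y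
    have h3 : (nrm b y : ℝ) ≤ M := by exact_mod_cast (nrm_lt_of_mem_box b hM0 hy).le
    have h4 : (nrm b y : ℝ) ^ n ≤ (M : ℝ) ^ n := pow_le_pow_left₀ (Nat.cast_nonneg _) h3 n
    have h5 : (x ^ al ε) ^ VV ε = x ^ ((VV ε : ℝ) * al ε) := by
      rw [← Real.rpow_natCast, ← Real.rpow_mul hx0.le, mul_comm]
    rw [h5]
    have h6 : (0 : ℝ) < x ^ (9 / 4 : ℝ) := Real.rpow_pos_of_pos hx0 _
    have h7 : (0 : ℝ) ≤ C' := Nat.cast_nonneg _
    nlinarith [mul_le_mul_of_nonneg_left (h4.trans hM2) h7]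

/-- an element of a product of `m` small ideals is a product of small elements, up to `Q ^ m` -/
theorem exists_list (hn : 0 < n) : ∃ Q C : ℕ, 1 ≤ Q ∧ 1 ≤ C ∧ ∀ (m : ℕ) (l : Fin m → Ideal O) (u B : ℝ),
    0 < u → (∀ i, u ≤ Ideal.absNorm (l i) ∧ (Ideal.absNorm (l i) : ℝ) ≤ B) → ∀ g : O, g ≠ 0 →
      g ∈ ∏ i, l i → C ^ m * (nrm b g : ℝ) ^ n ≤ B * u ^ m →
      ∃ L : List O, L.length = m + 1 ∧ (∀ y ∈ L, y ≠ 0 ∧ (nrm b y : ℝ) ^ n ≤ B) ∧
        L.prod = (Q : O) ^ m * g := by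
  obtain ⟨Q, C, hQ, hC, hc⟩ := cascade2 b hn
  refine ⟨Q, C, hQ, hC, fun m l u B hu hl g hg0 hg hsz => ?_⟩
  have hlne : ∀ i, l i ≠ ⊥ := by
    intro i h
    have := (hl i).1
    rw [h, Ideal.absNorm_bot, Nat.cast_zero] at this
    linarith
  obtain ⟨β, g', hβ, heq, hle⟩ := hc m l hlne g hg
  refine ⟨g' :: List.ofFn β, ?_, ?_, ?_⟩
  · simp
  · have hQ0 : (Q : O) ≠ 0 := by
      exact_mod_cast (by omega : Q ≠ 0)
    intro y hy
    rcases List.mem_cons.1 hy with rfl | hy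
    · constructor
      · rintro rfl
        rw [mul_zero] at heq
        exact mul_ne_zero (pow_ne_zero _ hQ0) hg0 heq
      · have h1 : (nrm b y : ℝ) ^ n * ∏ i, (Ideal.absNorm (l i) : ℝ) ≤ C ^ m * (nrm b g : ℝ) ^ n := by
          exact_mod_cast hle
        have h2 : u ^ m ≤ ∏ i, (Ideal.absNorm (l i) : ℝ) := by
          have h3 : ∏ _i : Fin m, u ≤ ∏ i, (Ideal.absNorm (l i) : ℝ) :=
            Finset.prod_le_prod (fun _ _ => hu.le) fun i _ => (hl i).1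
          rwa [Finset.prod_const, Finset.card_univ, Fintype.card_fin] at h3
        have h4 : (0 : ℝ) < u ^ m := by positivity
        have h5 : (nrm b y : ℝ) ^ n * u ^ m ≤ B * u ^ m := by
          refine le_trans (mul_le_mul_of_nonneg_left h2 (by positivity)) (h1.trans hsz)
        exact le_of_mul_le_mul_right h5 h4
    · rw [List.mem_ofFn] at hy
      obtain ⟨i, rfl⟩ := hy
      refine ⟨(hβ i).1, ?_⟩
      have h1 : (nrm b (β i) : ℝ) ^ n ≤ Ideal.absNorm (l i) := by exact_mod_cast (hβ i).2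
      exact h1.trans (hl i).2
  · rw [List.prod_cons, List.prod_ofFn, heq, mul_comm]

/-- THEOREM K' -/
theorem thmK {ε : ℝ} (h0 : 0 < ε) (h1 : ε ≤ 1) (hn : n0 ε ≤ n) (hH : HMert O) :
    ∀ᶠ x : ℝ in atTop, ∀ p : ℕ, (p : ℝ) = x → ∀ [Fact p.Prime],
      ∀ π : Fin n → O →+* ZMod p, Function.Injective π → ∀ g : (ZMod p)ˣ,
        ∃ L : List (Fin n × O), L.length = 3 * (mm ε + 1) ∧
          (∀ q ∈ L, q.2 ≠ 0 ∧ (nrm b q.2 : ℝ) ^ n ≤ x ^ (19 / 20 * ε)) ∧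
          (L.map fun q => π q.1 q.2).prod = (g : ZMod p) := by
  have hnpos : 0 < n := lt_of_lt_of_le (by unfold n0; omega) hn
  have hal := al_pos h0 h1
  have hae := al_lt_e1 h0 h1
  have he1 := e1_pos h0 h1
  have hmal := mm_al h0 h1
  obtain ⟨C1, hC1, htri⟩ := triple b hnpos
  obtain ⟨Q, C2, hQ, hC2, hlist⟩ := exists_list b hnpos
  obtain ⟨C3, hC3, hmap⟩ := map_ne_zero b hnpos
  filter_upwards [dense b hnpos hH h0 h1, ev_ceil n hnpos (9 / 4) (by norm_num),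
    ev_root n hnpos (8 * n ^ 2) C1 2 (9 / 4) (by positivity) (by positivity) (by norm_num) (by norm_num),
    ev_pow (e1 ε) (19 / 20 * ε) 1 (by unfold e1; linarith),
    ev_pow (e2 ε) (19 / 20 * ε) (2 * C2 ^ mm ε) (by unfold e2; linarith),
    ev_pow (19 / 20 * ε) 1 (C3 + 1) (by linarith),
    eventually_gt_atTop (C1 : ℝ), eventually_gt_atTop (Q : ℝ), eventually_ge_atTop (1 : ℝ)]
    with x hx1 hx2 hx3 hx4 hx5 hx6 hx7 hx8 hx9 p hp hfact π hπ g
  have hx0 : 0 < x := by linarith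
  set M : ℕ := ⌈(x ^ (9 / 4 : ℝ)) ^ ((1 : ℝ) / n)⌉₊ with hM
  obtain ⟨hM1, hM2⟩ := hx2
  obtain ⟨T, hT1, hT2, hT3⟩ := hx1 M hM1 hM2
  have hn' : (0 : ℝ) < n := by exact_mod_cast hnpos
  have hMpos : 0 < M := by
    rcases Nat.eq_zero_or_pos M with h | h
    · rw [h, Nat.cast_zero, zero_pow hnpos.ne'] at hM1
      have := Real.rpow_pos_of_pos hx0 (9 / 4 : ℝ)
      linarith
    · exact h
  have hMposR : (0 : ℝ) < M := by exact_mod_cast hMpos
  -- lists for the elements of `T`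
  have hlistT : ∀ y ∈ T, ∃ L : List O, L.length = mm ε + 1 ∧
      (∀ z ∈ L, z ≠ 0 ∧ (nrm b z : ℝ) ^ n ≤ x ^ (19 / 20 * ε)) ∧ L.prod = (Q : O) ^ mm ε * y := by
    intro y hy
    obtain ⟨hy0, l, hl, hyl⟩ := hT2 y hy
    refine hlist (mm ε) l (x ^ al ε) (x ^ (19 / 20 * ε)) (Real.rpow_pos_of_pos hx0 _) ?_ y hy0 hyl ?_
    · intro i
      have h2 := (mem_wnd (Real.rpow_nonneg hx0.le _)).1 (hl i)
      refine ⟨h2.2.1.le, h2.2.2.trans ?_⟩
      rw [one_mul] at hx4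
      exact hx4
    · have h2 : (nrm b y : ℝ) ≤ M := by exact_mod_cast (nrm_lt_of_mem_box b hMpos (hT1 hy)).le
      have h3 : (nrm b y : ℝ) ^ n ≤ 2 * x ^ (9 / 4 : ℝ) :=
        (pow_le_pow_left₀ (Nat.cast_nonneg _) h2 n).trans hM2
      have h4 : (x ^ al ε) ^ mm ε = x ^ ((mm ε : ℝ) * al ε) := by
        rw [← Real.rpow_natCast, ← Real.rpow_mul hx0.le, mul_comm]
      have h5 : x ^ (9 / 4 : ℝ) ≤ x ^ e2 ε * x ^ ((mm ε : ℝ) * al ε) := by
        rw [← Real.rpow_add hx0]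
        exact Real.rpow_le_rpow_of_exponent_le hx9 (by linarith)
      rw [h4]
      have h6 : (0 : ℝ) < x ^ ((mm ε : ℝ) * al ε) := Real.rpow_pos_of_pos hx0 _
      calc (C2 : ℝ) ^ mm ε * (nrm b y : ℝ) ^ n ≤ C2 ^ mm ε * (2 * x ^ (9 / 4 : ℝ)) :=
            mul_le_mul_of_nonneg_left h3 (by positivity)
        _ ≤ C2 ^ mm ε * (2 * (x ^ e2 ε * x ^ ((mm ε : ℝ) * al ε))) := by gcongr
        _ = (2 * C2 ^ mm ε * x ^ e2 ε) * x ^ ((mm ε : ℝ) * al ε) := by ring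
        _ ≤ x ^ (19 / 20 * ε) * x ^ ((mm ε : ℝ) * al ε) := mul_le_mul_of_nonneg_right hx5 h6.le
  -- small elements do not vanish
  have hnz : ∀ (i : Fin n) (z : O), z ≠ 0 → (nrm b z : ℝ) ^ n ≤ x ^ (19 / 20 * ε) → π i z ≠ 0 := by
    intro i z hz hz2
    refine hmap p (π i) z hz ?_
    have h2 : (0 : ℝ) < x ^ (19 / 20 * ε) := Real.rpow_pos_of_pos hx0 _
    have h3 : ((C3 * nrm b z ^ n : ℕ) : ℝ) < (p : ℝ) := by
      push_cast
      rw [hp]
      rw [Real.rpow_one] at hx6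
      have h4 : (C3 : ℝ) * (nrm b z : ℝ) ^ n ≤ C3 * x ^ (19 / 20 * ε) :=
        mul_le_mul_of_nonneg_left hz2 (Nat.cast_nonneg _)
      nlinarith
    exact_mod_cast h3
  have hlistnz : ∀ (i : Fin n) (L : List O), (∀ z ∈ L, z ≠ 0 ∧ (nrm b z : ℝ) ^ n ≤ x ^ (19 / 20 * ε)) →
      π i L.prod ≠ 0 := by
    intro i L
    induction L with
    | nil => intro _; simp
    | cons a L ih =>
      intro h
      rw [List.prod_cons, map_mul]
      exact mul_ne_zero (hnz i a (h a List.mem_cons_self).1 (h a List.mem_cons_self).2)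
        (ih fun z hz => h z (List.mem_cons_of_mem _ hz))
  have hT0 : ∀ i, ∀ y ∈ T, π i y ≠ 0 := by
    intro i y hy h
    obtain ⟨L, _, hL2, hL3⟩ := hlistT y hy
    have := hlistnz i L hL2
    rw [hL3, map_mul, h, mul_zero] at this
    exact this rfl
  -- the constant `Q`
  have hQp : (Q : ZMod p) ≠ 0 := by
    intro h
    rw [ZMod.natCast_eq_zero_iff] at h
    have h2 := Nat.le_of_dvd (by omega) h
    have h3 : (p : ℝ) ≤ Q := by exact_mod_cast h2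
    linarith
  set D : ℕ := ⌈(C1 * x ^ (2 : ℝ)) ^ ((1 : ℝ) / n)⌉₊ with hD
  have hD1 : C1 * p ^ 2 ≤ D ^ n := by
    have h2 : ((C1 * x ^ (2 : ℝ)) ^ ((1 : ℝ) / n)) ^ n = C1 * x ^ (2 : ℝ) := by
      rw [one_div]
      exact Real.rpow_inv_natCast_pow (by positivity) hnpos.ne'
    have h3 : ((C1 * p ^ 2 : ℕ) : ℝ) ≤ ((D ^ n : ℕ) : ℝ) := by
      push_cast
      rw [hp]
      have h4 : x ^ (2 : ℝ) = x ^ 2 := by norm_cast
      rw [← h4, ← h2]
      exact pow_le_pow_left₀ (Real.rpow_nonneg (by positivity) _) (Nat.le_ceil _) n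
    exact_mod_cast h3
  have hD2 : 8 * (n : ℝ) ^ 2 * D ≤ M := by
    have h2 : (D : ℝ) ≤ (C1 * x ^ (2 : ℝ)) ^ ((1 : ℝ) / n) + 1 :=
      (Nat.ceil_lt_add_one (Real.rpow_nonneg (by positivity) _)).le
    have h3 : 8 * (n : ℝ) ^ 2 * D ≤ (x ^ (9 / 4 : ℝ)) ^ ((1 : ℝ) / n) :=
      (mul_le_mul_of_nonneg_left h2 (by positivity)).trans hx3
    exact h3.trans (Nat.le_ceil _)
  have hD3 : 8 * n ^ 2 * D ≤ M := by exact_mod_cast hD2
  have hM3 : n * (2 * n * D * M ^ (n - 1)) ≤ M ^ n := by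
    calc n * (2 * n * D * M ^ (n - 1)) = (2 * n ^ 2 * D) * M ^ (n - 1) := by ring
      _ ≤ (8 * n ^ 2 * D) * M ^ (n - 1) := by
          refine Nat.mul_le_mul_right _ ?_
          nlinarith [Nat.zero_le (n ^ 2 * D)]
      _ ≤ M * M ^ (n - 1) := Nat.mul_le_mul_right _ hD3
      _ = M ^ n := by rw [← pow_succ', Nat.sub_add_cancel hnpos]
  have hM4 : (M + 2 * D) ^ n ≤ 2 * M ^ n := by
    refine add_pow_le_two n M D hnpos hMpos (le_trans ?_ hD3)
    have : n ≤ n ^ 2 := by nlinarith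
    calc 4 * n * D ≤ 8 * n ^ 2 * D := by
          refine Nat.mul_le_mul_right _ ?_
          nlinarith
      _ = 8 * n ^ 2 * D := rfl
  have hcard : 8 * (M ^ n) ^ 3 < n * T.card ^ 3 := by
    have h2 := n0_spec h0 h1 n hn ((M : ℝ) ^ n) T.card (by positivity) hT3
    exact_mod_cast h2
  have hC1p : C1 < p := by
    have : (C1 : ℝ) < p := by rw [hp]; exact hx7
    exact_mod_cast this
  obtain ⟨i, j, k, y1, hy1, y2, hy2, y3, hy3, hprod⟩ :=
    htri p hC1p π hπ M D hD1 hM3 hM4 T hT1 hT0 hcard (g * (Units.mk0 (Q : ZMod p) hQp)⁻¹ ^ (3 * mm ε))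
  obtain ⟨L1, hL11, hL12, hL13⟩ := hlistT y1 hy1
  obtain ⟨L2, hL21, hL22, hL23⟩ := hlistT y2 hy2
  obtain ⟨L3, hL31, hL32, hL33⟩ := hlistT y3 hy3
  refine ⟨(L1.map fun z => (i, z)) ++ (L2.map fun z => (j, z)) ++ (L3.map fun z => (k, z)), ?_, ?_, ?_⟩
  · simp only [List.length_append, List.length_map]
    omega
  · intro q hq
    rw [List.mem_append, List.mem_append, List.mem_map, List.mem_map, List.mem_map] at hq
    rcases hq with (⟨z, hz, rfl⟩ | ⟨z, hz, rfl⟩) | ⟨z, hz, rfl⟩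
    · exact hL12 z hz
    · exact hL22 z hz
    · exact hL32 z hz
  · rw [List.map_append, List.map_append, List.prod_append, List.prod_append]
    have hmapL : ∀ (i : Fin n) (L : List O),
        ((L.map fun z => (i, z)).map fun q => π q.1 q.2).prod = π i L.prod := by
      intro i L
      rw [List.map_map, map_list_prod]
      rfl
    rw [hmapL, hmapL, hmapL, hL13, hL23, hL33]
    simp only [map_mul, map_pow, map_natCast]
    have h2 : (Q : ZMod p) ^ mm ε * π i y1 * ((Q : ZMod p) ^ mm ε * π j y2) *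
        ((Q : ZMod p) ^ mm ε * π k y3) =
        (Q : ZMod p) ^ (3 * mm ε) * (π i y1 * π j y2 * π k y3) := by ring
    rw [h2, hprod]
    push_cast
    rw [Units.val_mk0]
    have hQ3 : (Q : ZMod p) ^ (3 * mm ε) ≠ 0 := pow_ne_zero _ hQp
    rw [inv_pow]
    field_simp

end Pool.Agent.GenB
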