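import Pool.Agent.GenF.Orth
import Pool.Agent.GenB.Class
import Pool.Agent.GenB.Bes
import Pool.Agent.GenB.Four

/-!
Every residue is a product of three images of elements of a dense subset of a box.
-/

set_option autoImplicit false

namespace Pool.Agent.GenB

open Finset Pool.Agent.GenF

variable {O : Type} [CommRing O] [IsDedekindDomain O] [Module.Free ℤ O] [Module.Finite ℤ O]
  [CharZero O] {n : ℕ} (b : Module.Basis (Fin n) ℤ O)

theorem triple (hn : 0 < n) : ∃ C : ℕ, 1 ≤ C ∧ ∀ (p : ℕ) [Fact p.Prime], C < p →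
    ∀ π : Fin n → O →+* ZMod p, Function.Injective π → ∀ M D : ℕ, C * p ^ 2 ≤ D ^ n →
      n * (2 * n * D * M ^ (n - 1)) ≤ M ^ n → (M + 2 * D) ^ n ≤ 2 * M ^ n →
      ∀ T : Finset O, T ⊆ box b 0 M → (∀ i, ∀ x ∈ T, π i x ≠ 0) →
        8 * (M ^ n) ^ 3 < n * T.card ^ 3 →
        ∀ g : (ZMod p)ˣ, ∃ i j k : Fin n, ∃ x ∈ T, ∃ y ∈ T, ∃ z ∈ T,
          π i x * π j y * π k z = (g : ZMod p) := by
  classical
  obtain ⟨C1, hC1, hor⟩ := orth b hn
  obtain ⟨C2, hC2, hcl⟩ := count_class b hn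
  refine ⟨max C1 C2, le_max_of_le_left hC1, ?_⟩
  intro p hp hCp π hπ M D hD hM1 hM2 T hT hT0 hcard g
  have hB : ((box b 0 (M : ℤ)).card) = M ^ n := by
    rw [card_box]; congr 1
  have hp0 : 0 < p := hp.out.pos
  -- the weight
  set P : Finset (Fin n × O) := (Finset.univ : Finset (Fin n)) ×ˢ T with hP
  set u : (ZMod p)ˣ → ℝ := fun a => ((P.filter fun q => π q.1 q.2 = (a : ZMod p)).card : ℝ) with hu
  have hua : ∀ a, u a = ((P.filter fun q => π q.1 q.2 = (a : ZMod p)).card : ℝ) := fun a => rfl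
  have hPcard : (P.card : ℝ) = n * T.card := by
    rw [hP, Finset.card_product, Finset.card_univ, Fintype.card_fin]; push_cast; ring
  -- transform
  have hunit : ∀ q ∈ P, ∃ a : (ZMod p)ˣ, π q.1 q.2 = (a : ZMod p) := by
    intro q hq
    rw [hP, Finset.mem_product] at hq
    exact ⟨Units.mk0 _ (hT0 q.1 q.2 hq.2), rfl⟩
  have htrans : ∀ F : ZMod p → ℂ, ∑ a : (ZMod p)ˣ, (u a : ℂ) * F (a : ZMod p) =
      ∑ q ∈ P, F (π q.1 q.2) := by
    intro F
    have h1 : ∀ a : (ZMod p)ˣ, (u a : ℂ) * F (a : ZMod p) =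
        ∑ q ∈ P, if π q.1 q.2 = (a : ZMod p) then F (π q.1 q.2) else 0 := by
      intro a
      rw [← Finset.sum_filter, hua]
      have h2 : ∀ q ∈ P.filter (fun q => π q.1 q.2 = (a : ZMod p)), F (π q.1 q.2) = F (a : ZMod p) := by
        intro q hq
        rw [(Finset.mem_filter.1 hq).2]
      rw [Finset.sum_congr rfl h2, Finset.sum_const, nsmul_eq_mul]
      push_cast
      rfl
    rw [Finset.sum_congr rfl fun a _ => h1 a, Finset.sum_comm]
    refine Finset.sum_congr rfl fun q hq => ?_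
    obtain ⟨a, ha⟩ := hunit q hq
    rw [Finset.sum_eq_single a]
    · rw [if_pos ha]
    · intro c _ hc
      rw [if_neg]
      intro h
      exact hc (Units.ext (by rw [← h, ha]))
    · intro h; exact absurd (Finset.mem_univ a) h
  have hsum : ∑ a : (ZMod p)ˣ, u a = n * T.card := by
    have h := htrans (fun _ => 1)
    simp only [mul_one, Finset.sum_const, nsmul_eq_mul] at h
    rw [← hPcard]
    exact_mod_cast h
  -- values
  have hval : ∀ a, u a ≤ 2 * n * (M : ℝ) ^ n / p := by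
    intro a
    rw [le_div_iff₀ (by exact_mod_cast hp0)]
    have h1 : (P.filter fun q => π q.1 q.2 = (a : ZMod p)).card ≤
        ∑ i : Fin n, (T.filter fun x => π i x = (a : ZMod p)).card := by
      have h2 : (P.filter fun q => π q.1 q.2 = (a : ZMod p)) ⊆
          ((Finset.univ : Finset (Fin n)).sigma (fun i => T.filter fun x => π i x = (a : ZMod p))).map
            (Equiv.sigmaEquivProd (Fin n) O).toEmbedding := by
        intro q hq
        rw [Finset.mem_filter, hP, Finset.mem_product] at hq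
        rw [Finset.mem_map]
        exact ⟨⟨q.1, q.2⟩, Finset.mem_sigma.2 ⟨Finset.mem_univ _, Finset.mem_filter.2 ⟨hq.1.2, hq.2⟩⟩, rfl⟩
      refine (Finset.card_le_card h2).trans ?_
      rw [Finset.card_map, Finset.card_sigma]
    have h3 : ∀ i : Fin n, p * (T.filter fun x => π i x = (a : ZMod p)).card ≤ 2 * M ^ n := by
      intro i
      obtain ⟨a0, ha0⟩ := ZMod.ringHom_surjective (π i) (a : ZMod p)
      have hk : RingHom.ker (π i) ≠ ⊥ := by
        intro h
        have := absNorm_ker p (π i)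
        rw [h, Ideal.absNorm_bot] at this
        omega
      have h4 := hcl (RingHom.ker (π i)) hk M D (by
        rw [absNorm_ker]
        calc C2 * p ≤ max C1 C2 * p ^ 2 := Nat.mul_le_mul (le_max_right _ _) (by nlinarith)
          _ ≤ D ^ n := hD) a0
      rw [absNorm_ker] at h4
      refine le_trans (Nat.mul_le_mul_left _ (Finset.card_le_card ?_)) (h4.trans hM2)
      intro x hx
      rw [Finset.mem_filter] at hx ⊢
      refine ⟨hT hx.1, ?_⟩
      rw [RingHom.mem_ker, map_sub, hx.2, ha0, sub_self]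
    have h5 : (P.filter fun q => π q.1 q.2 = (a : ZMod p)).card * p ≤ 2 * n * M ^ n := by
      calc (P.filter fun q => π q.1 q.2 = (a : ZMod p)).card * p
          ≤ (∑ i : Fin n, (T.filter fun x => π i x = (a : ZMod p)).card) * p :=
            Nat.mul_le_mul_right _ h1
        _ = ∑ i : Fin n, p * (T.filter fun x => π i x = (a : ZMod p)).card := by
            rw [Finset.sum_mul]; exact Finset.sum_congr rfl fun i _ => Nat.mul_comm _ _
        _ ≤ ∑ _i : Fin n, 2 * M ^ n := Finset.sum_le_sum fun i _ => h3 i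
        _ = 2 * n * M ^ n := by
            rw [Finset.sum_const, Finset.card_univ, Fintype.card_fin, smul_eq_mul]; ring
    rw [hua]
    exact_mod_cast h5
  -- character sums
  set K : ℝ := Real.sqrt (2 * n * (M : ℝ) ^ n * T.card) with hK
  have hchar : ∀ χ : DirichletCharacter ℂ p, χ ≠ 1 →
      ‖∑ a : (ZMod p)ˣ, (u a : ℂ) * χ (a : ZMod p)‖ ≤ K := by
    intro χ hχ
    rw [htrans (fun a => χ a)]
    have h1 : ∑ q ∈ P, χ (π q.1 q.2) = ∑ x ∈ T, ∑ i : Fin n, χ (π i x) := by
      rw [hP, Finset.sum_product_right]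
    rw [h1]
    refine Real.le_sqrt_of_sq_le ?_
    have hη : (0 : ℝ) ≤ 2 * n * D * (M : ℝ) ^ (n - 1) := by positivity
    have h2 := bessel_sub (box b 0 (M : ℤ)) T hT (fun (i : Fin n) x => χ (π i x))
      (fun i x => DirichletCharacter.norm_le_one χ _) (2 * n * D * (M : ℝ) ^ (n - 1)) hη
      (fun i j hij => hor p (lt_of_le_of_lt (le_max_left _ _) hCp) (π i) (π j) (fun h => hij (hπ h)) χ hχ M D
        ((Nat.mul_le_mul_right _ (le_max_left _ _)).trans hD))
    refine h2.trans ?_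
    rw [hB]
    have h3 : (n : ℝ) * (2 * n * D * (M : ℝ) ^ (n - 1)) ≤ (M : ℝ) ^ n := by exact_mod_cast hM1
    have h4 : (n : ℝ) * ((M ^ n : ℕ) : ℝ) + (n : ℝ) ^ 2 * (2 * n * D * (M : ℝ) ^ (n - 1)) ≤
        2 * n * (M : ℝ) ^ n := by
      push_cast
      nlinarith [mul_le_mul_of_nonneg_left h3 (Nat.cast_nonneg n : (0 : ℝ) ≤ n)]
    calc (T.card : ℝ) * ((n : ℝ) * ((M ^ n : ℕ) : ℝ) + (n : ℝ) ^ 2 * (2 * n * D * (M : ℝ) ^ (n - 1)))
        ≤ T.card * (2 * n * (M : ℝ) ^ n) := mul_le_mul_of_nonneg_left h4 (Nat.cast_nonneg _)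
      _ = 2 * n * (M : ℝ) ^ n * T.card := by ring
  have hT1 : 0 < T.card := by
    rcases Nat.eq_zero_or_pos T.card with h | h
    · rw [h] at hcard; simp at hcard
    · exact h
  have hM0 : 0 < M := by
    rcases Nat.eq_zero_or_pos M with h | h
    · subst h
      have : T.card ≤ 0 := by
        have h5 := Finset.card_le_card hT
        rw [hB, Nat.zero_pow hn] at h5
        exact h5
      omega
    · exact h
  have hbig : K * (p * (2 * n * (M : ℝ) ^ n / p) * ∑ a : (ZMod p)ˣ, u a) <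
      (∑ a : (ZMod p)ˣ, u a) ^ 3 := by
    rw [hsum, mul_div_cancel₀ _ (by exact_mod_cast hp0.ne')]
    have hn' : (0 : ℝ) < n := by exact_mod_cast hn
    have hT' : (0 : ℝ) < T.card := by exact_mod_cast hT1
    have hB' : (0 : ℝ) < (M : ℝ) ^ n := by positivity
    set t : ℝ := (T.card : ℝ) with ht
    set B : ℝ := (M : ℝ) ^ n with hBdef
    have hc : 8 * B ^ 3 < n * t ^ 3 := by
      have : ((8 * (M ^ n) ^ 3 : ℕ) : ℝ) < ((n * T.card ^ 3 : ℕ) : ℝ) := by exact_mod_cast hcard
      push_cast at this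
      exact this
    have hK2 : K * (2 * B) < n * t ^ 2 := by
      have h1 : K ^ 2 = 2 * n * B * t := Real.sq_sqrt (by positivity)
      have h2 : (K * (2 * B)) ^ 2 < (n * t ^ 2) ^ 2 := by
        rw [mul_pow, h1]
        have h3 : 2 * n * B * t * (2 * B) ^ 2 = (n * t) * (8 * B ^ 3) := by ring
        have h4 : (n * t ^ 2 : ℝ) ^ 2 = (n * t) * (n * t ^ 3) := by ring
        rw [h3, h4]
        exact mul_lt_mul_of_pos_left hc (by positivity)
      exact lt_of_pow_lt_pow_left₀ 2 (by positivity) h2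
    calc K * (2 * n * B * (n * t)) = (K * (2 * B)) * (n ^ 2 * t) := by ring
      _ < (n * t ^ 2) * (n ^ 2 * t) := mul_lt_mul_of_pos_right hK2 (by positivity)
      _ = (n * t) ^ 3 := by ring
  obtain ⟨a, c, d, hacd, ha, hc, hd⟩ := triple_cover p u (fun a => Nat.cast_nonneg _)
    (2 * n * (M : ℝ) ^ n / p) K hval hchar (Real.sqrt_nonneg _) hbig g
  have hex : ∀ a : (ZMod p)ˣ, 0 < u a → ∃ i : Fin n, ∃ x ∈ T, π i x = (a : ZMod p) := by
    intro a ha
    rw [hua] at ha
    have h1 : 0 < (P.filter fun q => π q.1 q.2 = (a : ZMod p)).card := by exact_mod_cast ha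
    obtain ⟨q, hq⟩ := Finset.card_pos.1 h1
    rw [Finset.mem_filter, hP, Finset.mem_product] at hq
    exact ⟨q.1, q.2, hq.1.2, hq.2⟩
  obtain ⟨i, x, hx, hix⟩ := hex a ha
  obtain ⟨j, y, hy, hjy⟩ := hex c hc
  obtain ⟨k, z, hz, hkz⟩ := hex d hd
  refine ⟨i, j, k, x, hx, y, hy, z, hz, ?_⟩
  rw [hix, hjy, hkz, ← hacd]
  push_cast
  rfl

end Pool.Agent.GenB
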